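import Mathlib
import Pool.Agent.V7H36.BC.Defs

/-!
# The Lie algebras of the stabilizers of a group action: definitions
-/

set_option autoImplicit false

open MulAction

namespace Pool.Agent.V7H36.NS

open Pool.Agent.V7H36.BC

section

variable {G : Type} [Group G] {R : Type} [Ring R] [Algebra ℝ R]

/-- Conjugation by `ρ g`. -/
def conj (ρ : G →* R) (g : G) : R ≃ₗ[ℝ] R where
  toFun ξ := ρ g * ξ * ρ g⁻¹
  map_add' a b := by rw [mul_add, add_mul]
  map_smul' c a := by simp
  invFun ξ := ρ g⁻¹ * ξ * ρ g
  left_inv ξ := by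
    have h : ρ g⁻¹ * ρ g = 1 := by rw [← map_mul, inv_mul_cancel, map_one]
    calc ρ g⁻¹ * (ρ g * ξ * ρ g⁻¹) * ρ g = (ρ g⁻¹ * ρ g) * ξ * (ρ g⁻¹ * ρ g) := by
          simp only [mul_assoc]
      _ = ξ := by rw [h, one_mul, mul_one]
  right_inv ξ := by
    have h : ρ g * ρ g⁻¹ = 1 := by rw [← map_mul, mul_inv_cancel, map_one]
    calc ρ g * (ρ g⁻¹ * ξ * ρ g) * ρ g⁻¹ = (ρ g * ρ g⁻¹) * ξ * (ρ g * ρ g⁻¹) := by
          simp only [mul_assoc]
      _ = ξ := by rw [h, one_mul, mul_one]

theorem conj_apply (ρ : G →* R) (g : G) (ξ : R) : conj ρ g ξ = ρ g * ξ * ρ g⁻¹ := rfl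

theorem conj_one (ρ : G →* R) (ξ : R) : conj ρ 1 ξ = ξ := by
  rw [conj_apply, inv_one, map_one, one_mul, mul_one]

theorem conj_mul (ρ : G →* R) (g h : G) (ξ : R) : conj ρ (g * h) ξ = conj ρ g (conj ρ h ξ) := by
  simp only [conj_apply, mul_inv_rev, map_mul, mul_assoc]

/-- The normalizer of a subset of `R` in `G`. -/
def normalizerOf (ρ : G →* R) (S : Set R) : Subgroup G where
  carrier := {g | ∀ ξ, ρ g * ξ * ρ g⁻¹ ∈ S ↔ ξ ∈ S}
  one_mem' ξ := by
    change conj ρ 1 ξ ∈ S ↔ ξ ∈ S
    rw [conj_one]
  mul_mem' {g h} hg hh ξ := by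
    change conj ρ (g * h) ξ ∈ S ↔ ξ ∈ S
    rw [conj_mul]
    exact (hg _).trans (hh ξ)
  inv_mem' {g} hg ξ := by
    change conj ρ g⁻¹ ξ ∈ S ↔ ξ ∈ S
    have h := hg (conj ρ g⁻¹ ξ)
    change conj ρ g (conj ρ g⁻¹ ξ) ∈ S ↔ conj ρ g⁻¹ ξ ∈ S at h
    rw [← conj_mul, mul_inv_cancel, conj_one] at h
    exact h.symm

/-- The Grassmannian of the subspaces of dimension `d` of the algebra `R`, on which `G` acts by
conjugation. -/
def Gr (_ : G →* R) (d : ℕ) : Type := {W : Submodule ℝ R // Module.finrank ℝ W = d}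

/-- The action of `G` on the Grassmannian by conjugation. -/
instance actGr (ρ : G →* R) (d : ℕ) : MulAction G (Gr ρ d) where
  smul g W := ⟨W.1.map (conj ρ g).toLinearMap, by
    rw [LinearEquiv.finrank_map_eq]
    exact W.2⟩
  one_smul W := by
    refine Subtype.ext ?_
    change W.1.map (conj ρ 1).toLinearMap = W.1
    ext ξ
    rw [Submodule.mem_map]
    constructor
    · rintro ⟨η, hη, h⟩
      have h' : conj ρ 1 η = ξ := h
      rw [conj_one] at h'
      rwa [← h']
    · intro h
      exact ⟨ξ, h, conj_one ρ ξ⟩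
  mul_smul g h W := by
    refine Subtype.ext ?_
    change W.1.map (conj ρ (g * h)).toLinearMap =
      (W.1.map (conj ρ h).toLinearMap).map (conj ρ g).toLinearMap
    rw [← Submodule.map_comp]
    congr 1
    ext ξ
    exact conj_mul ρ g h ξ

theorem smulGr (ρ : G →* R) (d : ℕ) (g : G) (W : Gr ρ d) :
    (g • W).1 = W.1.map (conj ρ g).toLinearMap := rfl

variable [TopologicalSpace R]

/-- The usual topology of the Grassmannian: it is generated by the sets of the subspaces which are
disjoint from a compact set. -/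
instance topGr (ρ : G →* R) (d : ℕ) : TopologicalSpace (Gr ρ d) :=
  TopologicalSpace.generateFrom
    {U | ∃ K : Set R, IsCompact K ∧ U = {W : Gr ρ d | Disjoint (W.1 : Set R) K}}

variable [IsTopologicalRing R]

/-- The Lie algebra of the stabilizer of the point `x`: all `ξ` such that the one-parameter group
`exp (t ξ)` is contained in `G` and fixes `x`. -/
def lieSet (ρ : G →* R) {X : Type} [MulAction G X] (x : X) : Set R :=
  {ξ | ∀ t : ℝ, ∃ g : G, g • x = x ∧ ρ g = NormedSpace.exp (t • ξ)}

variable [TopologicalSpace G] [IsTopologicalGroup G]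

/-- The closure of the subgroup of `G` generated by the elements `exp ξ` for `ξ` in `S`. If `S` is the
Lie algebra of the stabilizer of `x`, then it is the identity component of the stabilizer. -/
def expGroup (ρ : G →* R) (S : Set R) : Subgroup G :=
  (Subgroup.closure {g | ∃ ξ ∈ S, ρ g = NormedSpace.exp ξ}).topologicalClosure

/-- The quotient of the normalizer of `S` by `expGroup ρ S` is an extension of an a-T-menable group by
an a-T-menable group. -/
def IsLarge (ρ : G →* R) (S : Set R) : Prop :=
  ∃ (N : Subgroup (normalizerOf ρ S)) (_ : N.Normal),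
    (∀ g : normalizerOf ρ S, g ∈ N ↔ (g : G) ∈ expGroup ρ S) ∧
      IsGood (normalizerOf ρ S ⧸ N)

/-- Further known properties of the assembly map of Baum and Connes with commutative coefficients, for
a connected Lie group `G`, a locally compact `G`-space `X` and the closed subgroups of `G`. -/
structure IsAssemblyExt {X : Type} [MulAction G X] [TopologicalSpace X]
    (BC : Subgroup G → Set X → Prop) : Prop where
  /-- the exact sequences of the open subset `A` of `A ∪ B` (`G` is exact) and the five lemma -/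
  restriction : ∀ A B : Set X, Invariant (⊤ : Subgroup G) A → Invariant (⊤ : Subgroup G) B →
    IsLocallyClosed A → IsLocallyClosed B → IsLocallyClosed (A ∪ B) → Disjoint A B →
    IsOpenIn A (A ∪ B) → BC ⊤ (A ∪ B) → BC ⊤ B → BC ⊤ A
  /-- Chabert, Echterhoff, Oyono-Oyono, Higson, Kasparov: if `H / L` is an extension of an a-T-menable
  group by an a-T-menable group, and the assembly map for `M` and `S` is an isomorphism for all
  `L ≤ M ≤ H` with `M / L` compact, then also for `H` and `S` -/
  extension : ∀ H L : Subgroup G, IsClosed (H : Set G) → IsClosed (L : Set G) → L ≤ H →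
    ∀ (N : Subgroup H) (_ : N.Normal), (∀ g : H, g ∈ N ↔ (g : G) ∈ L) → IsGood (H ⧸ N) →
      ∀ S : Set X, Invariant H S → IsLocallyClosed S →
        (∀ M : Subgroup G, IsClosed (M : Set G) → L ≤ M → M ≤ H →
          (∃ C : Set G, IsCompact C ∧ ∀ m ∈ M, ∃ c ∈ C, ∃ l ∈ L, m = c * l) → BC M S) → BC H S
  /-- Chabert, Echterhoff, Nest: the conjecture with trivial coefficients holds for the groups with
  finitely many connected components; so it holds for the `M`-spaces `S` on which a connected normal
  subgroup `L` with compact quotient `M / L` acts trivially (induction and the exact sequences for the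
  strata of the action of the compact Lie group `M / L`) -/
  compact : ∀ M L : Subgroup G, IsClosed (M : Set G) → IsClosed (L : Set G) → L ≤ M →
    IsConnected (L : Set G) → (∀ m ∈ M, ∀ l ∈ L, m * l * m⁻¹ ∈ L) →
    (∃ C : Set G, IsCompact C ∧ ∀ m ∈ M, ∃ c ∈ C, ∃ l ∈ L, m = c * l) →
      ∀ S : Set X, Invariant M S → IsLocallyClosed S → (∀ l ∈ L, ∀ x ∈ S, l • x = x) → BC M S

end

end Pool.Agent.V7H36.NS
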