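import Mathlib

/-!
# Closed subgroups and one-parameter groups in a finite-dimensional real algebra
-/

set_option autoImplicit false

open Topology Filter

namespace Pool.Agent.V7H36.NS

section

variable {R : Type} [NormedRing R] [NormedAlgebra ℝ R] [FiniteDimensional ℝ R]

theorem complete_alg : CompleteSpace R := FiniteDimensional.complete ℝ R

theorem exp0 : NormedSpace.exp (0 : R) = 1 := NormedSpace.exp_zero

theorem exp_cont : Continuous (NormedSpace.exp : R → R) := by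
  haveI : CompleteSpace R := complete_alg
  letI : NormedAlgebra ℚ R := NormedAlgebra.restrictScalars ℚ ℝ R
  exact NormedSpace.exp_continuous

theorem exp_add_smul (a b : ℝ) (ξ : R) :
    NormedSpace.exp ((a + b) • ξ) = NormedSpace.exp (a • ξ) * NormedSpace.exp (b • ξ) := by
  haveI : CompleteSpace R := complete_alg
  letI : NormedAlgebra ℚ R := NormedAlgebra.restrictScalars ℚ ℝ R
  rw [add_smul]
  exact NormedSpace.exp_add_of_commute (((Commute.refl ξ).smul_left a).smul_right b)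

theorem exp_neg_mul (ξ : R) : NormedSpace.exp (-ξ) * NormedSpace.exp ξ = 1 := by
  have h := exp_add_smul (-1) 1 ξ
  rw [neg_add_cancel, zero_smul, exp0, neg_smul, one_smul] at h
  exact h.symm

theorem exp_mul_neg (ξ : R) : NormedSpace.exp ξ * NormedSpace.exp (-ξ) = 1 := by
  have h := exp_add_smul 1 (-1) ξ
  rw [add_neg_cancel, zero_smul, exp0, neg_smul, one_smul] at h
  exact h.symm

theorem exp_nat (k : ℕ) (ξ : R) : NormedSpace.exp ((k : ℝ) • ξ) = NormedSpace.exp ξ ^ k := by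
  induction k with
  | zero => simp [exp0]
  | succ k ih =>
    rw [Nat.cast_succ, exp_add_smul, ih, one_smul, pow_succ]

/-- a local logarithm -/
theorem exists_log : ∃ lg : R → R, lg 1 = 0 ∧ HasFDerivAt lg (ContinuousLinearMap.id ℝ R) 1 ∧
    ∀ᶠ y in 𝓝 (1 : R), NormedSpace.exp (lg y) = y := by
  haveI : CompleteSpace R := complete_alg
  have h : HasStrictFDerivAt (NormedSpace.exp : R → R)
      ((ContinuousLinearEquiv.refl ℝ R : R ≃L[ℝ] R) : R →L[ℝ] R) 0 :=
    hasStrictFDerivAt_exp_zero (𝕂 := ℝ)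
  have h1 : (NormedSpace.exp (0 : R)) = 1 := exp0
  refine ⟨h.localInverse _ _ _, ?_, ?_, ?_⟩
  · have := h.localInverse_apply_image
    rwa [h1] at this
  · have := h.to_localInverse.hasFDerivAt
    rw [h1] at this
    exact this
  · have := h.eventually_right_inverse
    rwa [h1] at this

/-- The limit of directions of elements of a closed subgroup which tend to the identity. -/
theorem limit_mem {P : Set R} (hP : IsClosed P) (h1 : (1 : R) ∈ P)
    (hmul : ∀ a ∈ P, ∀ b ∈ P, a * b ∈ P) (hinv : ∀ ξ : R, NormedSpace.exp ξ ∈ P →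
      NormedSpace.exp (-ξ) ∈ P) {ι : Type} {l : Filter ι} [l.NeBot] {ζ : ι → R} {c : ι → ℝ} {ξ : R}
    (hζ : Tendsto ζ l (𝓝 0)) (hc : Tendsto (fun k => c k • ζ k) l (𝓝 ξ))
    (hm : ∀ᶠ k in l, NormedSpace.exp (ζ k) ∈ P) (t : ℝ) : NormedSpace.exp (t • ξ) ∈ P := by
  have hnat : ∀ ξ : R, NormedSpace.exp ξ ∈ P → ∀ k : ℕ, NormedSpace.exp ((k : ℝ) • ξ) ∈ P := by
    intro ξ hξ k
    rw [exp_nat]
    induction k with
    | zero => rw [pow_zero]; exact h1
    | succ k ih =>
      rw [pow_succ]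
      exact hmul _ ih _ hξ
  have hint : ∀ ξ : R, NormedSpace.exp ξ ∈ P → ∀ k : ℤ, NormedSpace.exp ((k : ℝ) • ξ) ∈ P := by
    intro ξ hξ k
    obtain ⟨m, rfl | rfl⟩ := k.eq_nat_or_neg
    · exact_mod_cast hnat ξ hξ m
    · have h2 := hnat _ (hinv ξ hξ) m
      rw [smul_neg, ← neg_smul] at h2
      push_cast
      exact h2
  have hlim : Tendsto (fun k => ((⌊t * c k⌋ : ℤ) : ℝ) • ζ k) l (𝓝 (t • ξ)) := by
    have h2 : Tendsto (fun k => t • (c k • ζ k)) l (𝓝 (t • ξ)) := hc.const_smul t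
    have h3 : Tendsto (fun k => Int.fract (t * c k) • ζ k) l (𝓝 0) := by
      refine squeeze_zero_norm (a := fun k => ‖ζ k‖) (fun k => ?_) (by simpa using hζ.norm)
      rw [norm_smul, Real.norm_eq_abs, abs_of_nonneg (Int.fract_nonneg _)]
      exact mul_le_of_le_one_left (norm_nonneg _) (Int.fract_lt_one _).le
    have h4 := h2.sub h3
    rw [sub_zero] at h4
    refine h4.congr fun k => ?_
    rw [smul_smul, ← sub_smul, Int.self_sub_fract]
  have h5 : Tendsto (fun k => NormedSpace.exp (((⌊t * c k⌋ : ℤ) : ℝ) • ζ k)) l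
      (𝓝 (NormedSpace.exp (t • ξ))) := (exp_cont.tendsto _).comp hlim
  exact hP.mem_of_tendsto h5 (hm.mono fun k hk => hint _ hk _)

/-- The sum of two directions. -/
theorem add_mem' {P : Set R} (hP : IsClosed P) (h1 : (1 : R) ∈ P)
    (hmul : ∀ a ∈ P, ∀ b ∈ P, a * b ∈ P) (hinv : ∀ ξ : R, NormedSpace.exp ξ ∈ P →
      NormedSpace.exp (-ξ) ∈ P) {a b : R} (ha : ∀ t : ℝ, NormedSpace.exp (t • a) ∈ P)
    (hb : ∀ t : ℝ, NormedSpace.exp (t • b) ∈ P) (t : ℝ) : NormedSpace.exp (t • (a + b)) ∈ P := by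
  haveI : CompleteSpace R := complete_alg
  obtain ⟨lg, hlg, hd, he⟩ := exists_log (R := R)
  -- the curve `exp (s a) exp (s b)`
  have hda : HasDerivAt (fun s : ℝ => NormedSpace.exp (s • a)) a 0 := by
    have := hasDerivAt_exp_smul_const (𝕂 := ℝ) a (0 : ℝ)
    rwa [zero_smul, exp0, one_mul] at this
  have hdb : HasDerivAt (fun s : ℝ => NormedSpace.exp (s • b)) b 0 := by
    have := hasDerivAt_exp_smul_const (𝕂 := ℝ) b (0 : ℝ)
    rwa [zero_smul, exp0, one_mul] at this
  have hdab : HasDerivAt (fun s : ℝ => NormedSpace.exp (s • a) * NormedSpace.exp (s • b)) (a + b)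
      0 := by
    have := hda.mul hdb
    simp only [zero_smul, exp0, one_mul, mul_one] at this
    exact this
  have h0 : NormedSpace.exp ((0 : ℝ) • a) * NormedSpace.exp ((0 : ℝ) • b) = 1 := by
    simp [exp0]
  have hd1 : HasDerivAt (fun s : ℝ => lg (NormedSpace.exp (s • a) * NormedSpace.exp (s • b)))
      (a + b) 0 := by
    have := HasFDerivAt.comp_hasDerivAt (0 : ℝ)
      (l := lg) (f := fun s : ℝ => NormedSpace.exp (s • a) * NormedSpace.exp (s • b))
      (l' := ContinuousLinearMap.id ℝ R) (by rw [h0]; exact hd) hdab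
    exact this
  have hlim := hd1.tendsto_slope_zero
  simp only [zero_add, h0, hlg, sub_zero] at hlim
  have hlim' : Tendsto (fun s : ℝ => s⁻¹ • lg (NormedSpace.exp (s • a) * NormedSpace.exp (s • b)))
      (𝓝[≠] 0) (𝓝 (a + b)) := by
    simpa [h0, hlg] using hlim
  refine limit_mem hP h1 hmul hinv (l := 𝓝[≠] (0 : ℝ))
    (ζ := fun s : ℝ => lg (NormedSpace.exp (s • a) * NormedSpace.exp (s • b)))
    (c := fun s => s⁻¹) ?_ hlim' ?_ t
  · have h2 := hd1.continuousAt.tendsto
    simp only [h0, hlg] at h2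
    exact h2.mono_left nhdsWithin_le_nhds
  · have h3 : Tendsto (fun s : ℝ => NormedSpace.exp (s • a) * NormedSpace.exp (s • b)) (𝓝[≠] 0)
        (𝓝 1) := by
      have := hdab.continuousAt.tendsto
      rw [h0] at this
      exact this.mono_left nhdsWithin_le_nhds
    filter_upwards [h3.eventually he] with s hs
    rw [hs]
    exact hmul _ (ha s) _ (hb s)

/-- A closed subgroup which is not discrete contains a one-parameter group. -/
theorem exists_direction {P : Set R} (hP : IsClosed P) (h1 : (1 : R) ∈ P)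
    (hmul : ∀ a ∈ P, ∀ b ∈ P, a * b ∈ P) (hinv : ∀ ξ : R, NormedSpace.exp ξ ∈ P →
      NormedSpace.exp (-ξ) ∈ P) (hacc : (𝓝[P \ {1}] (1 : R)).NeBot) :
    ∃ ξ : R, ξ ≠ 0 ∧ ∀ t : ℝ, NormedSpace.exp (t • ξ) ∈ P := by
  haveI : ProperSpace R := FiniteDimensional.proper ℝ R
  obtain ⟨lg, hlg, hd, he⟩ := exists_log (R := R)
  obtain ⟨u, hu⟩ := exists_seq_tendsto (𝓝[P \ {1}] (1 : R))
  have hu1 : Tendsto u atTop (𝓝 1) := hu.mono_right nhdsWithin_le_nhds
  have huP : ∀ᶠ k in atTop, u k ∈ P \ {1} := hu.eventually self_mem_nhdsWithin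
  have hζ0 : Tendsto (fun k => lg (u k)) atTop (𝓝 0) := by
    have := hd.continuousAt.tendsto.comp hu1
    rwa [hlg] at this
  have hexp : ∀ᶠ k in atTop, NormedSpace.exp (lg (u k)) = u k := hu1.eventually he
  -- the directions
  have hs : ∀ᶠ k in atTop, ‖lg (u k)‖⁻¹ • lg (u k) ∈ Metric.sphere (0 : R) 1 := by
    filter_upwards [huP, hexp] with k hk hk'
    have h2 : lg (u k) ≠ 0 := by
      intro h3
      rw [h3, exp0] at hk'
      exact hk.2 hk'.symm
    rw [mem_sphere_zero_iff_norm, norm_smul, norm_inv, norm_norm]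
    exact inv_mul_cancel₀ (norm_ne_zero_iff.2 h2)
  obtain ⟨ξ, hξ, φ, hφ, hlim⟩ :=
    (isCompact_sphere (0 : R) 1).tendsto_subseq' hs.frequently
  refine ⟨ξ, ?_, fun t => ?_⟩
  · rintro rfl
    simp at hξ
  · refine limit_mem hP h1 hmul hinv (l := atTop) (ζ := fun k => lg (u (φ k)))
      (c := fun k => ‖lg (u (φ k))‖⁻¹) (hζ0.comp hφ.tendsto_atTop) hlim ?_ t
    have h2 := hφ.tendsto_atTop.eventually (huP.and hexp)
    filter_upwards [h2] with k hk
    rw [hk.2]
    exact hk.1.1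

/-- A one-parameter group which is trivial near zero is trivial. -/
theorem eq_zero_of_exp {ξ : R} (h : ∀ᶠ t : ℝ in 𝓝 0, NormedSpace.exp (t • ξ) = 1) : ξ = 0 := by
  haveI : CompleteSpace R := complete_alg
  have hda : HasDerivAt (fun s : ℝ => NormedSpace.exp (s • ξ)) ξ 0 := by
    have := hasDerivAt_exp_smul_const (𝕂 := ℝ) ξ (0 : ℝ)
    rwa [zero_smul, exp0, one_mul] at this
  have h2 : HasDerivAt (fun s : ℝ => NormedSpace.exp (s • ξ)) 0 0 :=
    (hasDerivAt_const (0 : ℝ) (1 : R)).congr_of_eventuallyEq h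
  exact hda.unique h2

/-- conjugation -/
theorem exp_conj {u v : R} (h : u * v = 1) (h' : v * u = 1) (ξ : R) :
    NormedSpace.exp (u * ξ * v) = u * NormedSpace.exp ξ * v := by
  haveI : CompleteSpace R := complete_alg
  letI : NormedAlgebra ℚ R := NormedAlgebra.restrictScalars ℚ ℝ R
  exact NormedSpace.exp_units_conj (⟨u, v, h, h'⟩ : Rˣ) ξ

end

end Pool.Agent.V7H36.NS
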