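import Mathlib
import Pool.Agent.V7H36.NS.Exp
import Pool.Agent.V7H36.NS.Defs

/-!
# The Lie algebras of the stabilizers of a group action
-/

set_option autoImplicit false

open Topology Filter MulAction

namespace Pool.Agent.V7H36.NS

section

variable {G : Type} [Group G] [TopologicalSpace G] {R : Type}
  [NormedRing R] [NormedAlgebra ℝ R] [FiniteDimensional ℝ R] {ρ : G →* R} {X : Type}
  [TopologicalSpace X] [T2Space X] [MulAction G X] [ContinuousSMul G X]

/-- the image of the stabilizer -/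
def pts (ρ : G →* R) (x : X) : Set R := {r | ∃ g : G, g • x = x ∧ ρ g = r}

theorem isClosed_fix : IsClosed {p : G × X | p.1 • p.2 = p.2} :=
  isClosed_eq (continuous_fst.smul continuous_snd) continuous_snd

theorem isClosed_rel (hρ : IsClosedEmbedding ρ) : IsClosed {p : R × X | p.1 ∈ pts ρ p.2} := by
  have h1 : IsClosedEmbedding (Prod.map ρ (id : X → X)) := hρ.prodMap .id
  have h2 := h1.isClosedMap _ (isClosed_fix (G := G) (X := X))
  convert h2 using 1
  ext ⟨r, x⟩
  constructor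
  · rintro ⟨g, hg, hr⟩
    exact ⟨(g, x), hg, by rw [Prod.map_apply, hr, id]⟩
  · rintro ⟨⟨g, y⟩, hg, h⟩
    rw [Prod.map_apply, id, Prod.mk.injEq] at h
    obtain ⟨h3, rfl⟩ := h
    exact ⟨g, hg, h3⟩

theorem isClosed_pts (hρ : IsClosedEmbedding ρ) (x : X) : IsClosed (pts ρ x) :=
  (isClosed_rel hρ).preimage (f := fun r : R => (r, x)) (by fun_prop)

theorem isClosed_lie (hρ : IsClosedEmbedding ρ) : IsClosed {p : R × X | p.1 ∈ lieSet ρ p.2} := by
  have h1 : {p : R × X | p.1 ∈ lieSet ρ p.2} = ⋂ t : ℝ,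
      (fun p : R × X => (NormedSpace.exp (t • p.1), p.2)) ⁻¹' {p : R × X | p.1 ∈ pts ρ p.2} := by
    ext p
    simp only [Set.mem_iInter]
    rfl
  rw [h1]
  refine isClosed_iInter fun t => (isClosed_rel hρ).preimage ?_
  exact (exp_cont.comp (continuous_fst.const_smul t)).prodMk continuous_snd

omit [TopologicalSpace X] [T2Space X] [ContinuousSMul G X] [TopologicalSpace G] in
theorem pts_one (x : X) : (1 : R) ∈ pts ρ x := ⟨1, one_smul _ _, map_one ρ⟩

omit [TopologicalSpace X] [T2Space X] [ContinuousSMul G X] [TopologicalSpace G] in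
theorem pts_mul (x : X) : ∀ a ∈ pts ρ x, ∀ b ∈ pts ρ x, a * b ∈ pts ρ x := by
  rintro _ ⟨g, hg, rfl⟩ _ ⟨h, hh, rfl⟩
  exact ⟨g * h, by rw [mul_smul, hh, hg], map_mul ρ g h⟩

omit [TopologicalSpace X] [T2Space X] [ContinuousSMul G X] [TopologicalSpace G] in
theorem pts_inv (x : X) (ξ : R) (h : NormedSpace.exp ξ ∈ pts ρ x) :
    NormedSpace.exp (-ξ) ∈ pts ρ x := by
  obtain ⟨g, hg, h⟩ := h
  refine ⟨g⁻¹, by rw [inv_smul_eq_iff, hg], ?_⟩
  have h1 : ρ g⁻¹ * ρ g = 1 := by rw [← map_mul, inv_mul_cancel, map_one]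
  rw [h] at h1
  calc ρ g⁻¹ = ρ g⁻¹ * (NormedSpace.exp ξ * NormedSpace.exp (-ξ)) := by rw [exp_mul_neg, mul_one]
    _ = NormedSpace.exp (-ξ) := by rw [← mul_assoc, h1, one_mul]

/-- the Lie algebra of the stabilizer as a subspace -/
def lie (hρ : IsClosedEmbedding ρ) (x : X) : Submodule ℝ R where
  carrier := lieSet ρ x
  add_mem' {a b} ha hb := add_mem' (isClosed_pts hρ x) (pts_one x) (pts_mul x) (pts_inv x) ha hb
  zero_mem' t := by rw [smul_zero, exp0]; exact pts_one x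
  smul_mem' c a ha t := by rw [smul_smul]; exact ha (t * c)

theorem coe_lie (hρ : IsClosedEmbedding ρ) (x : X) : (lie hρ x : Set R) = lieSet ρ x := rfl

theorem mem_lie (hρ : IsClosedEmbedding ρ) (x : X) (ξ : R) : ξ ∈ lie hρ x ↔ ξ ∈ lieSet ρ x := Iff.rfl

omit [TopologicalSpace G] [TopologicalSpace X] [T2Space X] [ContinuousSMul G X] in
theorem conj_lieSet' (g : G) (x : X) {ξ : R} (h : ξ ∈ lieSet ρ x) :
    conj ρ g ξ ∈ lieSet ρ (g • x) := by
  intro t
  obtain ⟨k, hk, hk'⟩ := h t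
  refine ⟨g * k * g⁻¹, by rw [mul_smul, mul_smul, inv_smul_smul, hk], ?_⟩
  have h1 : ρ g * ρ g⁻¹ = 1 := by rw [← map_mul, mul_inv_cancel, map_one]
  have h2 : ρ g⁻¹ * ρ g = 1 := by rw [← map_mul, inv_mul_cancel, map_one]
  rw [← map_smul, conj_apply, exp_conj h1 h2, map_mul, map_mul, hk']

omit [TopologicalSpace G] [TopologicalSpace X] [T2Space X] [ContinuousSMul G X] in
theorem conj_lieSet (g : G) (x : X) (ξ : R) :
    conj ρ g ξ ∈ lieSet ρ (g • x) ↔ ξ ∈ lieSet ρ x := by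
  refine ⟨fun h => ?_, conj_lieSet' g x⟩
  have h1 := conj_lieSet' g⁻¹ (g • x) h
  rwa [inv_smul_smul, ← conj_mul, inv_mul_cancel, conj_one] at h1

theorem map_lie (hρ : IsClosedEmbedding ρ) (g : G) (x : X) :
    (lie hρ x).map (conj ρ g).toLinearMap = lie hρ (g • x) := by
  ext ξ
  rw [Submodule.mem_map]
  constructor
  · rintro ⟨η, hη, rfl⟩
    exact conj_lieSet' g x hη
  · intro h
    refine ⟨conj ρ g⁻¹ ξ, ?_, ?_⟩
    · have := conj_lieSet' g⁻¹ (g • x) h
      rw [inv_smul_smul] at this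
      exact this
    · change conj ρ g (conj ρ g⁻¹ ξ) = ξ
      rw [← conj_mul, mul_inv_cancel, conj_one]

theorem finrank_lie_smul (hρ : IsClosedEmbedding ρ) (g : G) (x : X) :
    Module.finrank ℝ (lie hρ (g • x)) = Module.finrank ℝ (lie hρ x) := by
  rw [← map_lie, LinearEquiv.finrank_map_eq]

/-! ### Semicontinuity -/

theorem isOpen_disjoint (hρ : IsClosedEmbedding ρ) {K : Set R} (hK : IsCompact K) :
    IsOpen {x : X | Disjoint (lieSet ρ x) K} := by
  rw [isOpen_iff_mem_nhds]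
  intro x hx
  obtain ⟨u, v, -, hv, hu', hv', huv⟩ := generalized_tube_lemma hK (isCompact_singleton (x := x))
    (isClosed_lie (X := X) hρ).isOpen_compl (by
      rintro ⟨ξ, y⟩ ⟨h1, h2⟩ h3
      have h4 : y = x := h2
      subst h4
      exact Set.disjoint_left.1 hx h3 h1)
  filter_upwards [hv.mem_nhds (hv' rfl)] with y hy
  refine Set.disjoint_left.2 fun ξ h1 h2 => ?_
  exact huv (Set.mk_mem_prod (hu' h2) hy) h1

theorem isOpen_finrank_lt (hρ : IsClosedEmbedding ρ) (d : ℕ) :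
    IsOpen {x : X | Module.finrank ℝ (lie hρ x) < d} := by
  haveI : ProperSpace R := FiniteDimensional.proper ℝ R
  rw [isOpen_iff_mem_nhds]
  intro x hx
  obtain ⟨C, hC⟩ := (lie hρ x).exists_isCompl
  have hK : IsCompact ((C : Set R) ∩ Metric.sphere 0 1) :=
    (isCompact_sphere (0 : R) 1).inter_left C.closed_of_finiteDimensional
  have hdis : Disjoint (lieSet ρ x) ((C : Set R) ∩ Metric.sphere 0 1) := by
    rw [Set.disjoint_left]
    rintro ξ h1 ⟨h2, h3⟩
    have h4 : ξ = 0 := Submodule.disjoint_def.1 hC.disjoint ξ h1 h2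
    rw [h4] at h3
    simp at h3
  filter_upwards [(isOpen_disjoint hρ hK).mem_nhds hdis] with y hy
  have h1 : Disjoint (lie hρ y) C := by
    rw [Submodule.disjoint_def]
    intro ξ h2 h3
    by_contra h4
    have h5 : ‖ξ‖⁻¹ • ξ ∈ lieSet ρ y := (lie hρ y).smul_mem _ h2
    refine Set.disjoint_left.1 hy h5 ⟨C.smul_mem _ h3, ?_⟩
    rw [mem_sphere_zero_iff_norm, norm_smul, norm_inv, norm_norm]
    exact inv_mul_cancel₀ (norm_ne_zero_iff.2 h4)
  have h2 := Submodule.finrank_add_finrank_le_of_disjoint h1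
  have h3 := Submodule.finrank_add_eq_of_isCompl hC
  have h4 : Module.finrank ℝ (lie hρ x) < d := hx
  change Module.finrank ℝ (lie hρ y) < d
  omega

/-! ### The stabilizers of the points of the Grassmannian -/

omit [TopologicalSpace G] [FiniteDimensional ℝ R] in
theorem mem_stab_iff {d : ℕ} (v : Gr ρ d) (g : G) :
    g ∈ stabilizer G v ↔ g ∈ normalizerOf ρ (v.1 : Set R) := by
  rw [mem_stabilizer_iff]
  constructor
  · intro h ξ
    have h1 : v.1.map (conj ρ g).toLinearMap = v.1 := congrArg Subtype.val h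
    constructor
    · intro h2
      have h3 : conj ρ g ξ ∈ v.1.map (conj ρ g).toLinearMap := by rw [h1]; exact h2
      obtain ⟨η, hη, h4⟩ := h3
      rwa [← (conj ρ g).injective h4]
    · intro h2
      have h3 : conj ρ g ξ ∈ v.1.map (conj ρ g).toLinearMap := ⟨ξ, h2, rfl⟩
      rw [h1] at h3
      exact h3
  · intro h
    refine Subtype.ext ?_
    change v.1.map (conj ρ g).toLinearMap = v.1
    ext ξ
    rw [Submodule.mem_map]
    constructor
    · rintro ⟨η, hη, rfl⟩
      exact (h η).2 hη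
    · intro h1
      refine ⟨conj ρ g⁻¹ ξ, ?_, ?_⟩
      · refine (h _).1 ?_
        change conj ρ g (conj ρ g⁻¹ ξ) ∈ v.1
        rw [← conj_mul, mul_inv_cancel, conj_one]
        exact h1
      · change conj ρ g (conj ρ g⁻¹ ξ) = ξ
        rw [← conj_mul, mul_inv_cancel, conj_one]

omit [TopologicalSpace G] [FiniteDimensional ℝ R] in
theorem stab_eq {d : ℕ} (v : Gr ρ d) : stabilizer G v = normalizerOf ρ (v.1 : Set R) :=
  Subgroup.ext (mem_stab_iff v)

theorem isClosed_normalizerOf [IsTopologicalGroup G] (hρ : IsClosedEmbedding ρ)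
    (W : Submodule ℝ R) : IsClosed (normalizerOf ρ (W : Set R) : Set G) := by
  have h1 : (normalizerOf ρ (W : Set R) : Set G) =
      (⋂ ξ : W, {g : G | ρ g * ξ * ρ g⁻¹ ∈ (W : Set R)}) ∩
        ⋂ ξ : W, {g : G | ρ g⁻¹ * ξ * ρ g ∈ (W : Set R)} := by
    ext g
    simp only [Set.mem_inter_iff, Set.mem_iInter]
    constructor
    · intro h
      refine ⟨fun ξ => (h ξ).2 ξ.2, fun ξ => (h _).1 ?_⟩
      change conj ρ g (ρ g⁻¹ * ξ * ρ g) ∈ W
      have h2 : conj ρ g⁻¹ (ξ : R) = ρ g⁻¹ * ξ * ρ g := by rw [conj_apply, inv_inv]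
      rw [← h2, ← conj_mul, mul_inv_cancel, conj_one]
      exact ξ.2
    · rintro ⟨h2, h3⟩ ξ
      refine ⟨fun h4 => ?_, fun h4 => h2 ⟨ξ, h4⟩⟩
      have h5 := h3 ⟨_, h4⟩
      have h6 : ρ g⁻¹ * (ρ g * ξ * ρ g⁻¹) * ρ g = conj ρ g⁻¹ (conj ρ g ξ) := by
        rw [conj_apply, conj_apply, inv_inv]
      have h7 : ρ g⁻¹ * (ρ g * ξ * ρ g⁻¹) * ρ g ∈ (W : Set R) := h5
      rw [h6, ← conj_mul, inv_mul_cancel, conj_one] at h7
      exact h7
  rw [h1]
  have hc := hρ.continuous
  have hW : IsClosed (W : Set R) := W.closed_of_finiteDimensional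
  refine (isClosed_iInter fun ξ => hW.preimage ?_).inter (isClosed_iInter fun ξ => hW.preimage ?_)
  · exact (hc.mul continuous_const).mul (hc.comp continuous_inv)
  · exact ((hc.comp continuous_inv).mul continuous_const).mul hc

end

end Pool.Agent.V7H36.NS
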