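import Mathlib
import Pool.Agent.V7H36.BC.Main
import Pool.Agent.V7H36.NS.Lie

/-!
# The assembly map and the Lie algebras of the stabilizers
-/

set_option autoImplicit false

open Topology Filter MulAction

namespace Pool.Agent.V7H36.NS

open Pool.Agent.V7H36.BC

section

variable {G : Type} [Group G] [TopologicalSpace G] [IsTopologicalGroup G] {R : Type}
  [NormedRing R] [NormedAlgebra ℝ R] [FiniteDimensional ℝ R] {ρ : G →* R} {X : Type}
  [TopologicalSpace X] [T2Space X] [MulAction G X] [ContinuousSMul G X]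
  {BC : Subgroup G → Set X → Prop}

/-- the points with Lie algebra of dimension `d` -/
theorem stratum_case (hρ : IsClosedEmbedding ρ) {d : ℕ} (h : IsAssembly (Gr ρ d) BC)
    {Z : Set (Set (Gr ρ d))} (hZ : IsAlgebraic G Z) {A : Set X}
    (hA : Invariant (⊤ : Subgroup G) A) (hA' : IsLocallyClosed A)
    (hd : ∀ x ∈ A, Module.finrank ℝ (lie hρ x) = d)
    (hBC : ∀ W : Submodule ℝ R, Module.finrank ℝ W = d →
      BC (normalizerOf ρ (W : Set R)) {x | x ∈ A ∧ lieSet ρ x = W}) : BC ⊤ A := by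
  classical
  rcases A.eq_empty_or_nonempty with rfl | ⟨x₀, hx₀⟩
  · exact h.empty _
  let v₀ : Gr ρ d := ⟨lie hρ x₀, hd x₀ hx₀⟩
  let f : X → Gr ρ d := fun x =>
    if hx : Module.finrank ℝ (lie hρ x) = d then ⟨lie hρ x, hx⟩ else v₀
  have hf : ∀ x ∈ A, (f x).1 = lie hρ x := by
    intro x hx
    have h1 : f x = ⟨lie hρ x, hd x hx⟩ := dif_pos (hd x hx)
    rw [h1]
  have hfc : ContinuousOn f A := by
    rw [continuousOn_iff_continuous_domRestrict]
    refine continuous_generateFrom_iff.2 ?_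
    rintro _ ⟨K, hK, rfl⟩
    have h1 : A.domRestrict f ⁻¹' {W : Gr ρ d | Disjoint (W.1 : Set R) K} =
        (Subtype.val : A → X) ⁻¹' {x : X | Disjoint (lieSet ρ x) K} := by
      ext ⟨x, hx⟩
      change Disjoint ((f x).1 : Set R) K ↔ Disjoint (lieSet ρ x) K
      rw [hf x hx]
      rfl
    rw [h1]
    exact (isOpen_disjoint hρ hK).preimage continuous_subtype_val
  have hfe : EquivariantOn G f A := by
    intro g x hx
    refine Subtype.ext ?_
    rw [hf _ (hA g trivial x hx), smulGr, hf x hx, map_lie]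
  refine main h hZ hA hA' hfc hfe fun v => ?_
  rw [stab_eq]
  have h1 : A ∩ f ⁻¹' {v} = {x | x ∈ A ∧ lieSet ρ x = (v.1 : Set R)} := by
    ext x
    constructor
    · rintro ⟨hx, hx'⟩
      have h2 : f x = v := hx'
      refine ⟨hx, ?_⟩
      rw [← h2, hf x hx]
      rfl
    · rintro ⟨hx, hx'⟩
      refine ⟨hx, Subtype.ext ?_⟩
      rw [hf x hx]
      exact SetLike.coe_injective hx'
  rw [h1]
  exact hBC v.1 v.2

/-- **The local-global principle for the Lie algebras of the stabilizers.** -/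
theorem local_global (hρ : IsClosedEmbedding ρ) (h : ∀ d, IsAssembly (Gr ρ d) BC)
    (hZ : ∀ d, ∃ Z : Set (Set (Gr ρ d)), IsAlgebraic G Z) {A : Set X}
    (hA : Invariant (⊤ : Subgroup G) A) (hA' : IsLocallyClosed A) (d₀ : ℕ)
    (h₀ : BC ⊤ {x | x ∈ A ∧ Module.finrank ℝ (lie hρ x) < d₀})
    (hBC : ∀ W : Submodule ℝ R, d₀ ≤ Module.finrank ℝ W →
      BC (normalizerOf ρ (W : Set R)) {x | x ∈ A ∧ lieSet ρ x = W}) : BC ⊤ A := by
  have hinv : ∀ d, Invariant (⊤ : Subgroup G) {x | x ∈ A ∧ Module.finrank ℝ (lie hρ x) < d} := by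
    rintro d g - x ⟨hx, hx'⟩
    exact ⟨hA g trivial x hx, by rw [finrank_lie_smul]; exact hx'⟩
  have hlc : ∀ d, IsLocallyClosed {x | x ∈ A ∧ Module.finrank ℝ (lie hρ x) < d} := fun d =>
    hA'.inter (isOpen_finrank_lt hρ d).isLocallyClosed
  have key : ∀ k, BC ⊤ {x | x ∈ A ∧ Module.finrank ℝ (lie hρ x) < d₀ + k} := by
    intro k
    induction k with
    | zero => exact h₀
    | succ k ih =>
      have e1 : {x | x ∈ A ∧ Module.finrank ℝ (lie hρ x) < d₀ + (k + 1)} =
          {x | x ∈ A ∧ Module.finrank ℝ (lie hρ x) < d₀ + k} ∪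
            {x | x ∈ A ∧ Module.finrank ℝ (lie hρ x) = d₀ + k} := by
        ext x
        constructor
        · rintro ⟨h1, h2⟩
          rcases Nat.lt_succ_iff_lt_or_eq.1 h2 with h3 | h3
          · exact Or.inl ⟨h1, h3⟩
          · exact Or.inr ⟨h1, h3⟩
        · rintro (⟨h1, h2⟩ | ⟨h1, h2⟩)
          · exact ⟨h1, by omega⟩
          · exact ⟨h1, by omega⟩
      have hi2 : Invariant (⊤ : Subgroup G)
          {x | x ∈ A ∧ Module.finrank ℝ (lie hρ x) = d₀ + k} := by
        rintro g - x ⟨hx, hx'⟩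
        exact ⟨hA g trivial x hx, by rw [finrank_lie_smul]; exact hx'⟩
      have hl2 : IsLocallyClosed {x | x ∈ A ∧ Module.finrank ℝ (lie hρ x) = d₀ + k} := by
        have e2 : {x | x ∈ A ∧ Module.finrank ℝ (lie hρ x) = d₀ + k} =
            {x | x ∈ A ∧ Module.finrank ℝ (lie hρ x) < d₀ + (k + 1)} ∩
              {x | Module.finrank ℝ (lie hρ x) < d₀ + k}ᶜ := by
          ext x
          constructor
          · rintro ⟨h1, h2⟩
            refine ⟨⟨h1, by omega⟩, ?_⟩
            intro h3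
            have h4 : Module.finrank ℝ (lie hρ x) < d₀ + k := h3
            omega
          · rintro ⟨⟨h1, h2⟩, h3⟩
            have h4 : ¬ Module.finrank ℝ (lie hρ x) < d₀ + k := h3
            exact ⟨h1, by omega⟩
        rw [e2]
        exact (hlc _).inter (isOpen_finrank_lt hρ _).isClosed_compl.isLocallyClosed
      rw [e1]
      refine (h 0).excision _ _ (hinv _) hi2 (hlc _) hl2 (by rw [← e1]; exact hlc _) ?_ ?_ ih ?_
      · rw [Set.disjoint_left]
        rintro x ⟨-, h1⟩ ⟨-, h2⟩
        omega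
      · rw [← e1]
        refine ⟨_, isOpen_finrank_lt hρ (d₀ + k), ?_⟩
        ext x
        constructor
        · rintro ⟨h1, h2⟩
          exact ⟨⟨h1, by omega⟩, h2⟩
        · rintro ⟨⟨h1, -⟩, h2⟩
          exact ⟨h1, h2⟩
      · obtain ⟨Z, hZ'⟩ := hZ (d₀ + k)
        refine stratum_case hρ (h _) hZ' hi2 hl2 (fun x hx => hx.2) fun W hW => ?_
        have e3 : {x | x ∈ {x | x ∈ A ∧ Module.finrank ℝ (lie hρ x) = d₀ + k} ∧
            lieSet ρ x = (W : Set R)} = {x | x ∈ A ∧ lieSet ρ x = (W : Set R)} := by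
          ext x
          constructor
          · rintro ⟨⟨h1, -⟩, h2⟩
            exact ⟨h1, h2⟩
          · rintro ⟨h1, h2⟩
            have h3 : lie hρ x = W := SetLike.coe_injective h2
            exact ⟨⟨h1, by rw [h3, hW]⟩, h2⟩
        rw [e3]
        exact hBC W (by omega)
  have h1 := key (Module.finrank ℝ R + 1)
  have e4 : {x | x ∈ A ∧ Module.finrank ℝ (lie hρ x) < d₀ + (Module.finrank ℝ R + 1)} = A := by
    ext x
    constructor
    · exact fun h2 => h2.1
    · intro h2
      have h3 := (lie hρ x).finrank_le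
      exact ⟨h2, by omega⟩
  rwa [e4] at h1

/-! ### The identity component -/

theorem expGroup_le_stab (hρ : IsClosedEmbedding ρ) (x : X) :
    expGroup ρ (lieSet ρ x) ≤ stabilizer G x := by
  refine Subgroup.topologicalClosure_minimal _ ?_ ?_
  · rw [Subgroup.closure_le]
    rintro g ⟨ξ, hξ, hg⟩
    obtain ⟨k, hk, hk'⟩ := hξ 1
    rw [one_smul, ← hg] at hk'
    have h1 : k = g := hρ.injective hk'
    rw [← h1]
    exact hk
  · have h1 : (stabilizer G x : Set G) = (fun g : G => g • x) ⁻¹' {x} := by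
      ext g
      simp [mem_stabilizer_iff]
    rw [h1]
    exact isClosed_singleton.preimage (continuous_id.smul continuous_const)

omit [IsTopologicalGroup G] [T2Space X] [TopologicalSpace X] [ContinuousSMul G X]
  [TopologicalSpace G] in
theorem stab_le_normalizerOf (x : X) : stabilizer G x ≤ normalizerOf ρ (lieSet ρ x) := by
  intro g hg ξ
  have h1 := conj_lieSet (ρ := ρ) g x ξ
  rw [mem_stabilizer_iff.1 hg] at h1
  exact h1

omit [FiniteDimensional ℝ R] in
theorem conj_expGroup [CompleteSpace R] {S : Set R} {m : G} (hm : m ∈ normalizerOf ρ S) :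
    ∀ l ∈ expGroup ρ S, m * l * m⁻¹ ∈ expGroup ρ S := by
  have h1 : expGroup ρ S ≤ (expGroup ρ S).comap (MulAut.conj m).toMonoidHom := by
    refine Subgroup.topologicalClosure_minimal _ ?_ ?_
    · rw [Subgroup.closure_le]
      rintro g ⟨ξ, hξ, hg⟩
      refine Subgroup.le_topologicalClosure _ (Subgroup.subset_closure ?_)
      refine ⟨ρ m * ξ * ρ m⁻¹, (hm ξ).2 hξ, ?_⟩
      change ρ (m * g * m⁻¹) = _
      have h1 : ρ m * ρ m⁻¹ = 1 := by rw [← map_mul, mul_inv_cancel, map_one]
      have h2 : ρ m⁻¹ * ρ m = 1 := by rw [← map_mul, inv_mul_cancel, map_one]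
      letI : NormedAlgebra ℚ R := NormedAlgebra.restrictScalars ℚ ℝ R
      rw [map_mul, map_mul, hg]
      exact (NormedSpace.exp_units_conj (⟨ρ m, ρ m⁻¹, h1, h2⟩ : Rˣ) ξ).symm
    · have h2 : IsClosed (expGroup ρ S : Set G) := Subgroup.isClosed_topologicalClosure _
      refine h2.preimage (f := fun g : G => m * g * m⁻¹) ?_
      fun_prop
  intro l hl
  exact h1 hl

theorem connected_expGroup (hρ : IsClosedEmbedding ρ) (x : X) :
    IsConnected (expGroup ρ (lieSet ρ x) : Set G) := by
  refine IsConnected.closure ⟨⟨1, one_mem _⟩, ?_⟩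
  -- the generated group is connected
  set H := Subgroup.closure {g : G | ∃ ξ ∈ lieSet ρ x, ρ g = NormedSpace.exp ξ} with hH
  have hpath : ∀ g : G, (∃ ξ ∈ lieSet ρ x, ρ g = NormedSpace.exp ξ) →
      ∃ c : ℝ → G, Continuous c ∧ c 0 = 1 ∧ c 1 = g ∧ ∀ t, c t ∈ H := by
    rintro g ⟨ξ, hξ, hg⟩
    choose c hc hc' using hξ
    have h0 : ∀ t, c t ∈ H := by
      intro t
      refine Subgroup.subset_closure ⟨t • ξ, ?_, hc' t⟩
      exact (lie hρ x).smul_mem t fun s => ⟨c s, hc s, hc' s⟩
    refine ⟨c, ?_, hρ.injective ?_, hρ.injective ?_, h0⟩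
    · rw [hρ.isEmbedding.continuous_iff]
      have h2 : (ρ ∘ c) = fun t : ℝ => NormedSpace.exp (t • ξ) := funext hc'
      rw [h2]
      exact exp_cont.comp (continuous_id.smul continuous_const)
    · rw [hc', zero_smul, exp0, map_one]
    · rw [hc', one_smul, hg]
  refine isPreconnected_of_forall 1 fun g hg => ?_
  -- the connected component of `1` in `H`
  have key : g ∈ connectedComponentIn (H : Set G) 1 := by
    induction hg using Subgroup.closure_induction with
    | mem g hg =>
      obtain ⟨c, hc, h0, h1, hcH⟩ := hpath g hg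
      have h2 : IsPreconnected (Set.range c) := isPreconnected_range hc
      exact h2.subset_connectedComponentIn ⟨0, h0⟩ (by rintro _ ⟨t, rfl⟩; exact hcH t) ⟨1, h1⟩
    | one => exact mem_connectedComponentIn (one_mem H)
    | mul a b ha hb iha ihb =>
      have h2 : IsPreconnected ((fun z : G => a * z) '' connectedComponentIn (H : Set G) 1) :=
        isPreconnected_connectedComponentIn.image _ (by fun_prop)
      have h3 : (fun z : G => a * z) '' connectedComponentIn (H : Set G) 1 ⊆
          connectedComponentIn (H : Set G) a := by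
        refine h2.subset_connectedComponentIn ⟨1, mem_connectedComponentIn (one_mem H), mul_one a⟩ ?_
        rintro _ ⟨z, hz, rfl⟩
        exact mul_mem ha (connectedComponentIn_subset _ _ hz)
      rw [connectedComponentIn_eq iha]
      exact h3 ⟨b, ihb, rfl⟩
    | inv a ha iha =>
      have h2 : IsPreconnected ((fun z : G => a⁻¹ * z) '' connectedComponentIn (H : Set G) 1) :=
        isPreconnected_connectedComponentIn.image _ (by fun_prop)
      refine h2.subset_connectedComponentIn ⟨a, iha, inv_mul_cancel a⟩ ?_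
        ⟨1, mem_connectedComponentIn (one_mem H), mul_one _⟩
      rintro _ ⟨z, hz, rfl⟩
      exact mul_mem (inv_mem ha) (connectedComponentIn_subset _ _ hz)
  exact ⟨connectedComponentIn (H : Set G) 1, connectedComponentIn_subset _ _,
    mem_connectedComponentIn (one_mem H), key, isPreconnected_connectedComponentIn⟩

/-! ### Large stabilizers -/

theorem isLocallyClosed_lie_eq (hρ : IsClosedEmbedding ρ) {A : Set X} (hA' : IsLocallyClosed A)
    (W : Submodule ℝ R) : IsLocallyClosed {x | x ∈ A ∧ lieSet ρ x = W} := by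
  have e1 : {x | x ∈ A ∧ lieSet ρ x = (W : Set R)} =
      (A ∩ {x | Module.finrank ℝ (lie hρ x) < Module.finrank ℝ W + 1}) ∩
        ⋂ ξ : W, {x : X | (ξ : R) ∈ lieSet ρ x} := by
    ext x
    constructor
    · rintro ⟨h1, h2⟩
      have h3 : lie hρ x = W := SetLike.coe_injective h2
      refine ⟨⟨h1, ?_⟩, ?_⟩
      · change Module.finrank ℝ (lie hρ x) < _
        rw [h3]
        omega
      · rw [Set.mem_iInter]
        intro ξ
        change (ξ : R) ∈ lieSet ρ x
        rw [h2]
        exact ξ.2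
    · rintro ⟨⟨h1, h2⟩, h3⟩
      refine ⟨h1, ?_⟩
      rw [Set.mem_iInter] at h3
      have h4 : W ≤ lie hρ x := fun ξ hξ => h3 ⟨ξ, hξ⟩
      have h5 : Module.finrank ℝ (lie hρ x) < Module.finrank ℝ W + 1 := h2
      rw [Submodule.eq_of_le_of_finrank_le h4 (by omega)]
      rfl
  rw [e1]
  refine (hA'.inter (isOpen_finrank_lt hρ _).isLocallyClosed).inter
    (isClosed_iInter fun ξ => ?_).isLocallyClosed
  exact (isClosed_lie (X := X) hρ).preimage (f := fun x : X => ((ξ : R), x)) (by fun_prop)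

omit [TopologicalSpace G] [IsTopologicalGroup G] [TopologicalSpace X] [T2Space X]
  [ContinuousSMul G X] in
theorem invariant_lie_eq {A : Set X} (hA : Invariant (⊤ : Subgroup G) A) (W : Set R) :
    Invariant (normalizerOf ρ W) {x | x ∈ A ∧ lieSet ρ x = W} := by
  rintro g hg x ⟨hx, hx'⟩
  refine ⟨hA g trivial x hx, ?_⟩
  ext ξ
  have h1 := conj_lieSet (ρ := ρ) g x (conj ρ g⁻¹ ξ)
  rw [← conj_mul, mul_inv_cancel, conj_one, hx'] at h1
  rw [h1]
  have h2 := hg (conj ρ g⁻¹ ξ)
  change conj ρ g (conj ρ g⁻¹ ξ) ∈ W ↔ _ at h2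
  rw [← conj_mul, mul_inv_cancel, conj_one] at h2
  exact h2.symm

theorem large_case (hρ : IsClosedEmbedding ρ) (h : IsAssemblyExt BC) {A : Set X}
    (hA : Invariant (⊤ : Subgroup G) A) (hA' : IsLocallyClosed A) {W : Submodule ℝ R}
    {x₀ : X} (hx : lieSet ρ x₀ = W) (hW : IsLarge ρ (W : Set R)) :
    BC (normalizerOf ρ (W : Set R)) {x | x ∈ A ∧ lieSet ρ x = W} := by
  haveI : CompleteSpace R := complete_alg
  obtain ⟨N, hN, hN', hT⟩ := hW
  have hle : expGroup ρ (W : Set R) ≤ normalizerOf ρ (W : Set R) := by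
    rw [← hx]
    exact (expGroup_le_stab hρ x₀).trans (stab_le_normalizerOf x₀)
  have hcl : IsClosed (expGroup ρ (W : Set R) : Set G) := Subgroup.isClosed_topologicalClosure _
  refine h.extension _ (expGroup ρ (W : Set R)) (isClosed_normalizerOf hρ W) hcl hle N hN hN' hT _
    (invariant_lie_eq hA _) (isLocallyClosed_lie_eq hρ hA' W) fun M hM hLM hMN hC => ?_
  refine h.compact M (expGroup ρ (W : Set R)) hM hcl hLM ?_ ?_ hC _ ?_
    (isLocallyClosed_lie_eq hρ hA' W) ?_
  · rw [← hx]
    exact connected_expGroup hρ x₀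
  · intro m hm l hl
    exact conj_expGroup (hMN hm) l hl
  · intro m hm x hx
    exact invariant_lie_eq hA _ m (hMN hm) x hx
  · rintro l hl x ⟨-, hx'⟩
    rw [← hx'] at hl
    exact expGroup_le_stab hρ x hl

end

end Pool.Agent.V7H36.NS
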