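import Mathlib
import Pool.Agent.V7H36.HS.Stab
import Pool.Agent.V7H36.NS.Main

/-!
# Reduction to discrete stabilizers
-/

set_option autoImplicit false

open Topology Filter MulAction

namespace Pool.Agent.V7H36.NS

open Pool.Agent.V7H36.BC

section

variable {G : Type} [Group G] [TopologicalSpace G] [IsTopologicalGroup G] {R : Type}
  [NormedRing R] [NormedAlgebra ℝ R] [FiniteDimensional ℝ R] {ρ : G →* R} {X : Type}
  [TopologicalSpace X] [T2Space X] [MulAction G X] [ContinuousSMul G X]
  {BC : Subgroup G → Set X → Prop}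

/-- A stabilizer is discrete if and only if its Lie algebra is zero. -/
theorem discrete_iff (hρ : IsClosedEmbedding ρ) (x : X) :
    DiscreteTopology (stabilizer G x) ↔ lie hρ x = ⊥ := by
  constructor
  · intro hd
    rw [Submodule.eq_bot_iff]
    intro ξ hξ
    choose c hc hc' using hξ
    have hcont : Continuous fun t : ℝ => (⟨c t, hc t⟩ : stabilizer G x) := by
      refine Continuous.subtype_mk ?_ _
      rw [hρ.isEmbedding.continuous_iff]
      have h2 : (ρ ∘ c) = fun t : ℝ => NormedSpace.exp (t • ξ) := funext hc'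
      rw [h2]
      exact exp_cont.comp (continuous_id.smul continuous_const)
    have h0 : c 0 = 1 := hρ.injective (by rw [hc', zero_smul, exp0, map_one])
    refine eq_zero_of_exp ?_
    have h1 : ∀ᶠ t : ℝ in 𝓝 0, (⟨c t, hc t⟩ : stabilizer G x) ∈
        ({⟨c 0, hc 0⟩} : Set (stabilizer G x)) :=
      (hcont.tendsto 0).eventually ((isOpen_discrete _).mem_nhds rfl)
    filter_upwards [h1] with t ht
    have h3 : c t = 1 := by
      rw [← h0]
      exact congrArg Subtype.val ht
    rw [← hc' t, h3, map_one]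
  · intro hbot
    rw [discreteTopology_iff_isOpen_singleton_one]
    by_contra hno
    have hne : (𝓝[pts ρ x \ {1}] (1 : R)).NeBot := by
      by_contra hb
      rw [not_neBot, ← empty_mem_iff_bot, mem_nhdsWithin] at hb
      obtain ⟨u, hu, h1u, hu'⟩ := hb
      apply hno
      have h1 : ({1} : Set (stabilizer G x)) = (fun g : stabilizer G x => ρ g) ⁻¹' u := by
        ext g
        constructor
        · intro h2
          have h3 : g = 1 := h2
          rw [h3]
          change ρ 1 ∈ u
          rwa [map_one]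
        · intro h2
          by_contra h3
          refine hu' ⟨h2, ⟨g, g.2, rfl⟩, ?_⟩
          intro h4
          have h5 : ρ g = ρ 1 := by rw [map_one]; exact h4
          exact h3 (Subtype.ext (hρ.injective h5))
      rw [h1]
      exact hu.preimage (hρ.continuous.comp continuous_subtype_val)
    obtain ⟨ξ, hξ, hξ'⟩ := exists_direction (isClosed_pts hρ x) (pts_one x) (pts_mul x) (pts_inv x)
      hne
    have h2 : ξ ∈ lie hρ x := hξ'
    rw [hbot] at h2
    exact hξ h2

theorem discrete_set (hρ : IsClosedEmbedding ρ) (A : Set X) :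
    {x | x ∈ A ∧ DiscreteTopology (stabilizer G x)} =
      {x | x ∈ A ∧ Module.finrank ℝ (lie hρ x) < 1} := by
  ext x
  have h1 : DiscreteTopology (stabilizer G x) ↔ Module.finrank ℝ (lie hρ x) < 1 := by
    rw [discrete_iff hρ x, Nat.lt_one_iff, Submodule.finrank_eq_zero]
  constructor
  · rintro ⟨h2, h3⟩
    exact ⟨h2, h1.1 h3⟩
  · rintro ⟨h2, h3⟩
    exact ⟨h2, h1.2 h3⟩

/-- the points which are not fixed by `G` -/
theorem moved_case (hρ : IsClosedEmbedding ρ) (h : ∀ d, IsAssembly (Gr ρ d) BC)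
    (h' : IsAssemblyExt BC) (hZ : ∀ d, ∃ Z : Set (Set (Gr ρ d)), IsAlgebraic G Z) {A : Set X}
    (hA : Invariant (⊤ : Subgroup G) A) (hA' : IsLocallyClosed A)
    (hg : ∀ x ∈ A, ¬ DiscreteTopology (stabilizer G x) →
      IsGood (normalizerOf ρ (lieSet ρ x)) ∨ IsLarge ρ (lieSet ρ x))
    (h₀ : BC ⊤ {x | x ∈ A ∧ DiscreteTopology (stabilizer G x)}) : BC ⊤ A := by
  rw [discrete_set hρ] at h₀
  refine local_global hρ h hZ hA hA' 1 h₀ fun W hW => ?_
  rcases Set.eq_empty_or_nonempty {x | x ∈ A ∧ lieSet ρ x = (W : Set R)} with he | ⟨x, hx, hx'⟩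
  · rw [he]
    exact (h 0).empty _
  have hxW : lie hρ x = W := SetLike.coe_injective hx'
  have hnd : ¬ DiscreteTopology (stabilizer G x) := by
    intro hd
    rw [discrete_iff hρ x, hxW] at hd
    rw [hd, finrank_bot] at hW
    omega
  rcases hg x hx hnd with h1 | h1
  · rw [hx'] at h1
    exact (h 0).good _ _ (isClosed_normalizerOf hρ W) h1 (invariant_lie_eq hA _)
      (isLocallyClosed_lie_eq hρ hA' W)
  · rw [hx'] at h1
    exact large_case hρ h' hA hA' hx' h1

omit [IsTopologicalGroup G] in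
theorem isClosed_fixed : IsClosed {x : X | ∀ g : G, g • x = x} := by
  have h1 : {x : X | ∀ g : G, g • x = x} = ⋂ g : G, {x : X | g • x = x} := by
    ext x
    rw [Set.mem_iInter]
    rfl
  rw [h1]
  exact isClosed_iInter fun g => isClosed_eq (continuous_const_smul g) continuous_id

theorem fixed_case [ConnectedSpace G] (h' : IsAssemblyExt BC) {A : Set X}
    (hA' : IsLocallyClosed A) (hf : ∀ x ∈ A, ∀ g : G, g • x = x) : BC ⊤ A := by
  refine h'.compact ⊤ ⊤ isClosed_univ isClosed_univ le_rfl ?_ (fun _ _ _ _ => trivial)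
    ⟨{1}, isCompact_singleton, fun m _ => ⟨1, rfl, m, trivial, (one_mul m).symm⟩⟩ A ?_ hA' ?_
  · exact isConnected_univ
  · intro g _ x hx
    rw [hf x hx g]
    exact hx
  · intro l _ x hx
    exact hf x hx l

/-- The assembly map and the points with discrete stabilizers. -/
theorem reduction [ConnectedSpace G] (hρ : IsClosedEmbedding ρ)
    (h : ∀ d, IsAssembly (Gr ρ d) BC) (h' : IsAssemblyExt BC)
    (hZ : ∀ d, ∃ Z : Set (Set (Gr ρ d)), IsAlgebraic G Z) {A : Set X}
    (hA : Invariant (⊤ : Subgroup G) A) (hA' : IsLocallyClosed A)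
    (hg : ∀ x ∈ A, ¬ DiscreteTopology (stabilizer G x) → (∀ g : G, g • x = x) ∨
      IsGood (normalizerOf ρ (lieSet ρ x)) ∨ IsLarge ρ (lieSet ρ x))
    (h₀ : BC ⊤ {x | x ∈ A ∧ DiscreteTopology (stabilizer G x)}) : BC ⊤ A := by
  have hif : Invariant (⊤ : Subgroup G) (A ∩ {x : X | ∀ g : G, g • x = x}) := by
    rintro g - x ⟨hx, hx'⟩
    rw [hx' g]
    exact ⟨hx, hx'⟩
  have hlf : IsLocallyClosed (A ∩ {x : X | ∀ g : G, g • x = x}) :=
    hA'.inter isClosed_fixed.isLocallyClosed
  have hfix : BC ⊤ (A ∩ {x : X | ∀ g : G, g • x = x}) := fixed_case h' hlf fun x hx => hx.2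
  by_cases hdis : ∃ x ∈ A, (∀ g : G, g • x = x) ∧ DiscreteTopology (stabilizer G x)
  · -- the group is trivial
    obtain ⟨x, hx, hx', hd⟩ := hdis
    have h1 : stabilizer G x = ⊤ := by
      rw [eq_top_iff]
      exact fun g _ => hx' g
    rw [h1, discreteTopology_iff_isOpen_singleton_one] at hd
    have h2 : IsOpen ({1} : Set G) := by
      obtain ⟨u, hu, hu'⟩ := isOpen_induced_iff.1 hd
      have h3 : u = {1} := by
        ext g
        constructor
        · intro hg
          have h4 : (⟨g, trivial⟩ : (⊤ : Subgroup G)) ∈ (Subtype.val ⁻¹' u) := hg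
          rw [hu'] at h4
          exact congrArg Subtype.val (Set.mem_singleton_iff.1 h4)
        · intro hg
          have h4 : (1 : (⊤ : Subgroup G)) ∈ ((Subtype.val ⁻¹' u) : Set (⊤ : Subgroup G)) := by
            rw [hu']
            rfl
          have h5 : g = 1 := hg
          rw [h5]
          exact h4
      rwa [h3] at hu
    have h3 : ∀ g : G, g = 1 := by
      have h4 : IsClopen ({1} : Set G) := by
        haveI : DiscreteTopology G := discreteTopology_iff_isOpen_singleton_one.2 h2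
        exact isClopen_discrete _
      have h5 := h4.eq_univ ⟨1, rfl⟩
      intro g
      have h6 : g ∈ ({1} : Set G) := by rw [h5]; trivial
      exact h6
    refine fixed_case h' hA' fun y _ g => ?_
    rw [h3 g, one_smul]
  · -- the points which are not fixed
    push Not at hdis
    have him : Invariant (⊤ : Subgroup G) (A ∩ {x : X | ∀ g : G, g • x = x}ᶜ) := by
      rintro g - x ⟨hx, hx'⟩
      refine ⟨hA g trivial x hx, fun h1 => hx' fun k => ?_⟩
      have h2 := h1 (g⁻¹ * k * g * g⁻¹)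
      have h3 := h1 (g * k * g⁻¹)
      rw [mul_smul, inv_smul_smul, mul_smul] at h3
      exact MulAction.injective g h3
    have hlm : IsLocallyClosed (A ∩ {x : X | ∀ g : G, g • x = x}ᶜ) :=
      hA'.inter isClosed_fixed.isOpen_compl.isLocallyClosed
    have hmov : BC ⊤ (A ∩ {x : X | ∀ g : G, g • x = x}ᶜ) := by
      refine moved_case hρ h h' hZ him hlm ?_ ?_
      · rintro x ⟨hx, hx'⟩ hd
        rcases hg x hx hd with h1 | h1
        · exact absurd h1 hx'
        · exact h1
      · have e1 : {x | x ∈ A ∩ {x : X | ∀ g : G, g • x = x}ᶜ ∧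
            DiscreteTopology (stabilizer G x)} =
            {x | x ∈ A ∧ DiscreteTopology (stabilizer G x)} := by
          ext x
          constructor
          · rintro ⟨⟨h1, -⟩, h2⟩
            exact ⟨h1, h2⟩
          · rintro ⟨h1, h2⟩
            exact ⟨⟨h1, fun h3 => hdis x h1 h3 h2⟩, h2⟩
        rw [e1]
        exact h₀
    have e2 : (A ∩ {x : X | ∀ g : G, g • x = x}ᶜ) ∪ (A ∩ {x : X | ∀ g : G, g • x = x}) = A := by
      rw [← Set.inter_union_distrib_left, Set.compl_union_self, Set.inter_univ]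
    have key := (h 0).excision _ _ him hif hlm hlf (by rw [e2]; exact hA')
      (by
        rw [Set.disjoint_left]
        rintro x ⟨-, h1⟩ ⟨-, h2⟩
        exact h1 h2)
      (by
        rw [e2]
        exact ⟨_, isClosed_fixed.isOpen_compl, rfl⟩)
      hmov hfix
    rwa [e2] at key

/-- The assembly map and the points with discrete stabilizers, the converse. -/
theorem reduction_iff [ConnectedSpace G] (hρ : IsClosedEmbedding ρ)
    (h : ∀ d, IsAssembly (Gr ρ d) BC) (h' : IsAssemblyExt BC)
    (hZ : ∀ d, ∃ Z : Set (Set (Gr ρ d)), IsAlgebraic G Z) {A : Set X}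
    (hA : Invariant (⊤ : Subgroup G) A) (hA' : IsLocallyClosed A)
    (hg : ∀ x ∈ A, ¬ DiscreteTopology (stabilizer G x) → (∀ g : G, g • x = x) ∨
      IsGood (normalizerOf ρ (lieSet ρ x)) ∨ IsLarge ρ (lieSet ρ x)) :
    BC ⊤ A ↔ BC ⊤ {x | x ∈ A ∧ DiscreteTopology (stabilizer G x)} := by
  refine ⟨fun hBC => ?_, reduction hρ h h' hZ hA hA' hg⟩
  set A₀ := {x | x ∈ A ∧ DiscreteTopology (stabilizer G x)} with hA₀
  set A₁ := A ∩ {x | Module.finrank ℝ (lie hρ x) < 1}ᶜ with hA₁
  have e0 : A₀ = A ∩ {x | Module.finrank ℝ (lie hρ x) < 1} := discrete_set hρ A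
  have e1 : A₀ ∪ A₁ = A := by
    rw [e0, hA₁, ← Set.inter_union_distrib_left, Set.union_compl_self, Set.inter_univ]
  have ho : IsOpen {x : X | Module.finrank ℝ (lie hρ x) < 1} := isOpen_finrank_lt hρ 1
  have hi0 : Invariant (⊤ : Subgroup G) A₀ := by
    rw [e0]
    rintro g - x ⟨hx, hx'⟩
    refine ⟨hA g trivial x hx, ?_⟩
    change Module.finrank ℝ (lie hρ (g • x)) < 1
    rw [finrank_lie_smul]
    exact hx'
  have hi1 : Invariant (⊤ : Subgroup G) A₁ := by
    rintro g - x ⟨hx, hx'⟩
    refine ⟨hA g trivial x hx, ?_⟩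
    change ¬ Module.finrank ℝ (lie hρ (g • x)) < 1
    rw [finrank_lie_smul]
    exact hx'
  have hl0 : IsLocallyClosed A₀ := by
    rw [e0]
    exact hA'.inter ho.isLocallyClosed
  have hl1 : IsLocallyClosed A₁ := hA'.inter ho.isClosed_compl.isLocallyClosed
  have h1 : BC ⊤ A₁ := by
    refine reduction hρ h h' hZ hi1 hl1 (fun x hx hd => hg x hx.1 hd) ?_
    have e2 : {x | x ∈ A₁ ∧ DiscreteTopology (stabilizer G x)} = ∅ := by
      rw [discrete_set hρ A₁]
      ext x
      constructor
      · rintro ⟨⟨-, h2⟩, h3⟩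
        exact h2 h3
      · intro h2
        exact absurd h2 (Set.notMem_empty x)
    rw [e2]
    exact (h 0).empty _
  refine h'.restriction A₀ A₁ hi0 hi1 hl0 hl1 (by rw [e1]; exact hA') ?_ ?_ (by rw [e1]; exact hBC) h1
  · rw [Set.disjoint_left, e0]
    rintro x ⟨-, h2⟩ ⟨-, h3⟩
    exact h3 h2
  · rw [e1, e0]
    exact ⟨_, ho, rfl⟩

theorem exp_sq_zero {N : R} (hN : N * N = 0) : NormedSpace.exp N = 1 + N := by
  have h := congrFun (NormedSpace.exp_eq_tsum ℝ (𝔸 := R)) N
  rw [h, tsum_eq_sum (s := Finset.range 2)]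
  · simp [Finset.sum_range_succ]
  · intro b hb
    rw [Finset.mem_range, not_lt] at hb
    obtain ⟨c, rfl⟩ := Nat.exists_eq_add_of_le hb
    rw [pow_add, pow_two, hN, zero_mul, smul_zero]

theorem exp_scalar (c : ℝ) : NormedSpace.exp (c • (1 : R)) = Real.exp c • (1 : R) := by
  haveI : CompleteSpace R := complete_alg
  have h := NormedSpace.algebraMap_exp_comm (𝕂 := ℝ) (𝔸 := R) c
  rw [Algebra.algebraMap_eq_smul_one, Algebra.algebraMap_eq_smul_one, ← Real.exp_eq_exp_ℝ] at h
  exact h.symm

end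

end Pool.Agent.V7H36.NS
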