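import Mathlib
import Pool.Agent.V7H36.NS.Defs

/-!
# Orbits of small dimension: definitions
-/

set_option autoImplicit false

open MulAction
open scoped Manifold

namespace Pool.Agent.V7H36.NS

section

variable {G : Type} [Group G] {R : Type} [Ring R] [Algebra ℝ R] [TopologicalSpace R]
  [IsTopologicalRing R]

/-- The Lie algebra of the subgroup `H` of `G`: all `ξ` such that the one-parameter group `exp (t ξ)` is
contained in `H`. -/
def lieOf (ρ : G →* R) (H : Subgroup G) : Set R :=
  {ξ | ∀ t : ℝ, ∃ g ∈ H, ρ g = NormedSpace.exp (t • ξ)}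

/-- The dimension of the subgroup `H`. -/
noncomputable def dimOf (ρ : G →* R) (H : Subgroup G) : ℕ := Set.finrank ℝ (lieOf ρ H)

/-- Known for the closed linear groups `G` of finite index in a real algebraic group: if `H` is a
closed subgroup of `G`, `H⁰` its identity component, `N` the normalizer of its Lie algebra, and the
dimension of `N / H⁰` is at most seven, then `N / H⁰` is an extension of an a-T-menable group by an
a-T-menable group (modulo its radical it is locally isomorphic to a product of groups `SL_2(ℝ)`,
`SU(2)` and `SL_2(ℂ)`, because all the other simple Lie groups have dimension at least eight). -/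
def SmallQuotients [TopologicalSpace G] [IsTopologicalGroup G] (ρ : G →* R) : Prop :=
  ∀ H : Subgroup G, IsClosed (H : Set G) →
    dimOf ρ (normalizerOf ρ (lieOf ρ H)) ≤ dimOf ρ H + 7 → IsLarge ρ (lieOf ρ H)

/-- The group `G` is simple up to discrete subgroups: a closed subgroup whose Lie algebra is invariant
under `G` is discrete or has the dimension of `G`. All closed subgroups which are not `G` have codimension
at least `c`, and the dimension of `G` is greater than `c + 7`. For instance this is the case for
`G = SL_n(ℝ)`, `n ≥ 4`, and `c = n - 1`. -/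
structure IsSimpleOfCodim (ρ : G →* R) [TopologicalSpace G] (c : ℕ) : Prop where
  simple : ∀ H : Subgroup G, IsClosed (H : Set G) → normalizerOf ρ (lieOf ρ H) = ⊤ →
    dimOf ρ H = 0 ∨ dimOf ρ H = dimOf ρ (⊤ : Subgroup G)
  codim : ∀ H : Subgroup G, IsClosed (H : Set G) → H ≠ ⊤ → dimOf ρ H + c ≤ dimOf ρ (⊤ : Subgroup G)
  large : c + 7 < dimOf ρ (⊤ : Subgroup G)

/-- The action of `G` on the manifold `X` is differentiable: the elements of `G` act by
differentiable maps, and for each point `x` and each one-parameter group `c (t)` of `G` with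
direction `ξ` the curve `c (t) x` is differentiable at `t = 0` with a derivative which depends linearly
on `ξ`. This holds for all actions of class `C¹`. -/
structure IsDifferentiableAction (ρ : G →* R) (F X : Type) [NormedAddCommGroup F]
    [NormedSpace ℝ F] [TopologicalSpace X] [ChartedSpace F X] [MulAction G X] : Prop where
  maps : ∀ g : G, MDifferentiable 𝓘(ℝ, F) 𝓘(ℝ, F) fun x : X => g • x
  curves : ∀ x : X, ∃ D : R →ₗ[ℝ] F, ∀ ξ ∈ lieOf ρ (⊤ : Subgroup G), ∀ c : ℝ → G,
    (∀ t, ρ (c t) = NormedSpace.exp (t • ξ)) →
      HasMFDerivAt 𝓘(ℝ, ℝ) 𝓘(ℝ, F) (fun t : ℝ => c t • x) 0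
        ((1 : ℝ →L[ℝ] ℝ).smulRight (D ξ))

end

end Pool.Agent.V7H36.NS
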