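import Mathlib
import Pool.Agent.V7H36.NS.SDefs
import Pool.Agent.V7H36.NS.Final

/-!
# Orbits of small dimension
-/

set_option autoImplicit false

open Topology Filter MulAction
open scoped Manifold

namespace Pool.Agent.V7H36.NS

open Pool.Agent.V7H36.BC

section

variable {G : Type} [Group G] [TopologicalSpace G] {R : Type}
  [NormedRing R] [NormedAlgebra ℝ R] [FiniteDimensional ℝ R] {ρ : G →* R}

/-- the Lie algebra of a closed subgroup as a subspace -/
def lieH (hρ : IsClosedEmbedding ρ) (H : Subgroup G) (hH : IsClosed (H : Set G)) :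
    Submodule ℝ R where
  carrier := lieOf ρ H
  add_mem' {a b} ha hb := by
    have hP : IsClosed (ρ '' (H : Set G)) := hρ.isClosedMap _ hH
    refine add_mem' hP ⟨1, one_mem H, map_one ρ⟩ ?_ ?_ ha hb
    · rintro _ ⟨g, hg, rfl⟩ _ ⟨h, hh, rfl⟩
      exact ⟨g * h, mul_mem hg hh, map_mul ρ g h⟩
    · rintro ξ ⟨g, hg, h⟩
      refine ⟨g⁻¹, inv_mem hg, ?_⟩
      have h1 : ρ g⁻¹ * ρ g = 1 := by rw [← map_mul, inv_mul_cancel, map_one]
      rw [h] at h1
      calc ρ g⁻¹ = ρ g⁻¹ * (NormedSpace.exp ξ * NormedSpace.exp (-ξ)) := by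
            rw [exp_mul_neg, mul_one]
        _ = NormedSpace.exp (-ξ) := by rw [← mul_assoc, h1, one_mul]
  zero_mem' t := ⟨1, one_mem H, by rw [smul_zero, exp0, map_one]⟩
  smul_mem' c a ha t := by rw [smul_smul]; exact ha (t * c)

theorem dimOf_eq (hρ : IsClosedEmbedding ρ) (H : Subgroup G) (hH : IsClosed (H : Set G)) :
    dimOf ρ H = Module.finrank ℝ (lieH hρ H hH) := by
  have h1 : Submodule.span ℝ (lieOf ρ H) = lieH hρ H hH := Submodule.span_eq (lieH hρ H hH)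
  rw [dimOf, Set.finrank, h1]

theorem dimOf_mono {H K : Subgroup G} (h : H ≤ K) : dimOf ρ H ≤ dimOf ρ K := by
  refine Submodule.finrank_mono (Submodule.span_mono ?_)
  intro ξ hξ t
  obtain ⟨g, hg, h'⟩ := hξ t
  exact ⟨g, h hg, h'⟩

variable {X : Type} [TopologicalSpace X] [T2Space X] [MulAction G X] [ContinuousSMul G X]
  {BC : Subgroup G → Set X → Prop}

omit [TopologicalSpace G] [FiniteDimensional ℝ R] [NormedAlgebra ℝ R] [TopologicalSpace X]
  [T2Space X] [ContinuousSMul G X] in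
theorem lieSet_eq [NormedAlgebra ℝ R] (x : X) : lieSet ρ x = lieOf ρ (stabilizer G x) := rfl

theorem isClosed_stab (x : X) : IsClosed (stabilizer G x : Set G) := by
  have h1 : (stabilizer G x : Set G) = (fun g : G => g • x) ⁻¹' {x} := by
    ext g
    simp [mem_stabilizer_iff]
  rw [h1]
  exact isClosed_singleton.preimage (continuous_id.smul continuous_const)

/-- All stabilizers are large. -/
theorem all_large [IsTopologicalGroup G] (hρ : IsClosedEmbedding ρ)
    (h : ∀ d, IsAssembly (Gr ρ d) BC) (h' : IsAssemblyExt BC)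
    (hZ : ∀ d, ∃ Z : Set (Set (Gr ρ d)), IsAlgebraic G Z) {A : Set X}
    (hA : Invariant (⊤ : Subgroup G) A) (hA' : IsLocallyClosed A)
    (hg : ∀ x ∈ A, IsLarge ρ (lieSet ρ x)) : BC ⊤ A := by
  refine local_global hρ h hZ hA hA' 0 ?_ fun W _ => ?_
  · have e : {x | x ∈ A ∧ Module.finrank ℝ (lie hρ x) < 0} = ∅ := by
      ext x
      constructor
      · rintro ⟨-, h1⟩
        omega
      · intro h1
        exact absurd h1 (Set.notMem_empty x)
    rw [e]
    exact (h 0).empty _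
  · rcases Set.eq_empty_or_nonempty {x | x ∈ A ∧ lieSet ρ x = (W : Set R)} with
      he | ⟨x, hx, hx'⟩
    · rw [he]
      exact (h 0).empty _
    have h1 := hg x hx
    rw [hx'] at h1
    exact large_case hρ h' hA hA' hx' h1

/-- Orbits of small dimension. -/
theorem small_orbits [IsTopologicalGroup G] (hρ : IsClosedEmbedding ρ)
    (h : ∀ d, IsAssembly (Gr ρ d) BC) (h' : IsAssemblyExt BC)
    (hZ : ∀ d, ∃ Z : Set (Set (Gr ρ d)), IsAlgebraic G Z) (hK : SmallQuotients ρ) {A : Set X}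
    (hA : Invariant (⊤ : Subgroup G) A) (hA' : IsLocallyClosed A)
    (hg : ∀ x ∈ A, dimOf ρ (normalizerOf ρ (lieSet ρ x)) ≤ dimOf ρ (stabilizer G x) + 7) :
    BC ⊤ A :=
  all_large hρ h h' hZ hA hA' fun x hx => hK _ (isClosed_stab x) (hg x hx)

/-! ### Differentiable actions -/

theorem lie_of_zero {F : Type} [NormedAddCommGroup F] [NormedSpace ℝ F] [FiniteDimensional ℝ F]
    [ChartedSpace F X] [IsManifold 𝓘(ℝ, F) 1 X] (hρ : IsClosedEmbedding ρ)
    (hd : IsDifferentiableAction ρ F X) (x : X) :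
    ∃ D : R →ₗ[ℝ] F, ∀ ξ ∈ lieOf ρ (⊤ : Subgroup G), D ξ = 0 → ξ ∈ lieSet ρ x := by
  haveI : CompleteSpace F := FiniteDimensional.complete ℝ F
  obtain ⟨D, hD⟩ := hd.curves x
  refine ⟨D, fun ξ hξ h0 => ?_⟩
  choose c hc hc' using hξ
  have hmul : ∀ s t, c (s + t) = c s * c t := by
    intro s t
    refine hρ.injective ?_
    rw [map_mul, hc', hc', hc', exp_add_smul]
  have hc0 : c 0 = 1 := hρ.injective (by rw [hc', zero_smul, exp0, map_one])
  have hder : HasMFDerivAt 𝓘(ℝ, ℝ) 𝓘(ℝ, F) (fun t : ℝ => c t • x) 0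
      (0 : ℝ →L[ℝ] F) := by
    have h1 := hD ξ (fun t => ⟨c t, hc t, hc' t⟩) c hc'
    rw [h0] at h1
    convert h1 using 1
    ext
    exact (smul_zero (1 : ℝ)).symm
  -- the curve is an integral curve of the zero vector field
  have hint : IsMIntegralCurve (I := 𝓘(ℝ, F)) (fun t : ℝ => c t • x)
      (fun y : X => (0 : TangentSpace 𝓘(ℝ, F) y)) := by
    intro t₀
    have e1 : (fun t : ℝ => c t • x) = (fun y : X => c t₀ • y) ∘ (fun t : ℝ => c t • x) ∘
        (fun t : ℝ => t - t₀) := by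
      ext t
      simp only [Function.comp_apply]
      rw [← mul_smul, ← hmul]
      congr 2
      ring
    have h3 : HasMFDerivAt 𝓘(ℝ, ℝ) 𝓘(ℝ, ℝ) (fun t : ℝ => t - t₀) t₀
        (ContinuousLinearMap.id ℝ ℝ) :=
      ((hasFDerivAt_id t₀).sub_const t₀).hasMFDerivAt
    have h4 : HasMFDerivAt 𝓘(ℝ, ℝ) 𝓘(ℝ, F) (fun t : ℝ => c t • x) (t₀ - t₀)
        (0 : ℝ →L[ℝ] F) := by
      have h5 : t₀ - t₀ = 0 := sub_self t₀
      rw [h5]
      exact hder
    have h5 := HasMFDerivAt.comp (f := fun t : ℝ => t - t₀) t₀ h4 h3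
    have h6 : MDifferentiableAt 𝓘(ℝ, F) 𝓘(ℝ, F) (fun y : X => c t₀ • y) (c (t₀ - t₀) • x) :=
      hd.maps (c t₀) _
    have h7 := h6.hasMFDerivAt.comp t₀ h5
    have h9 : HasMFDerivAt 𝓘(ℝ, ℝ) 𝓘(ℝ, F) (fun t : ℝ => c t • x) t₀ (0 : ℝ →L[ℝ] F) := by
      rw [e1]
      convert h7 using 1
      ext
      exact (map_zero (mfderiv 𝓘(ℝ, F) 𝓘(ℝ, F) (fun y : X => c t₀ • y) (c (t₀ - t₀) • x))).symm
    refine h9.congr_mfderiv ?_
    ext
    exact (smul_zero (A := F) (1 : ℝ)).symm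
  have hconst : IsMIntegralCurve (I := 𝓘(ℝ, F)) (fun _ : ℝ => x)
      (fun y : X => (0 : TangentSpace 𝓘(ℝ, F) y)) := isMIntegralCurve_const rfl
  have hv : ContMDiff 𝓘(ℝ, F) (𝓘(ℝ, F).prod 𝓘(ℝ, F)) 1
      (fun y : X => (⟨y, (0 : TangentSpace 𝓘(ℝ, F) y)⟩ : TangentBundle 𝓘(ℝ, F) X)) :=
    Bundle.contMDiff_zeroSection ℝ (TangentSpace 𝓘(ℝ, F) : X → Type _)
  have key := isMIntegralCurve_Ioo_eq_of_contMDiff_boundaryless (t₀ := 0) hv hint hconst
    (by simp [hc0])
  intro t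
  exact ⟨c t, congrFun key t, hc' t⟩

theorem codim_le {F : Type} [NormedAddCommGroup F] [NormedSpace ℝ F] [FiniteDimensional ℝ F]
    [ChartedSpace F X] [IsManifold 𝓘(ℝ, F) 1 X] (hρ : IsClosedEmbedding ρ)
    (hd : IsDifferentiableAction ρ F X) (x : X) :
    dimOf ρ (⊤ : Subgroup G) ≤ dimOf ρ (stabilizer G x) + Module.finrank ℝ F := by
  obtain ⟨D, hD⟩ := lie_of_zero hρ hd x
  rw [dimOf_eq hρ _ isClosed_univ, dimOf_eq hρ _ (isClosed_stab x)]
  set L := lieH hρ (⊤ : Subgroup G) isClosed_univ with hL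
  have h1 := LinearMap.finrank_range_add_finrank_ker (D.domRestrict L)
  have h2 : Module.finrank ℝ (LinearMap.range (D.domRestrict L)) ≤ Module.finrank ℝ F :=
    Submodule.finrank_le _
  have h3 : Module.finrank ℝ (LinearMap.ker (D.domRestrict L)) ≤
      Module.finrank ℝ (lieH hρ (stabilizer G x) (isClosed_stab x)) := by
    rw [LinearEquiv.finrank_eq (Submodule.equivMapOfInjective L.subtype L.injective_subtype
      (LinearMap.ker (D.domRestrict L)))]
    refine Submodule.finrank_mono ?_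
    rintro _ ⟨ξ, hξ, rfl⟩
    exact hD ξ ξ.2 (LinearMap.mem_ker.1 hξ)
  omega

end

end Pool.Agent.V7H36.NS
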