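import Mathlib
import Pool.Agent.V7H36.NS.Small

/-!
# The assembly map and the orbits of dimension at least eight
-/

set_option autoImplicit false

open Topology Filter MulAction
open scoped Manifold

namespace Pool.Agent.V7H36.NS

open Pool.Agent.V7H36.BC

section

variable {G : Type} [Group G] [TopologicalSpace G] {R : Type}
  [NormedRing R] [NormedAlgebra ℝ R] [FiniteDimensional ℝ R] {ρ : G →* R}
  {X : Type} [TopologicalSpace X] [T2Space X] [MulAction G X] [ContinuousSMul G X]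
  {BC : Subgroup G → Set X → Prop}

theorem dim_stab (hρ : IsClosedEmbedding ρ) (x : X) :
    dimOf ρ (stabilizer G x) = Module.finrank ℝ (lie hρ x) := by
  have h1 : Submodule.span ℝ (lieOf ρ (stabilizer G x)) = lie hρ x := Submodule.span_eq (lie hρ x)
  rw [dimOf, Set.finrank, h1]

/-- The orbits of dimension at most seven do not matter. -/
theorem orbit_iff [IsTopologicalGroup G] (hρ : IsClosedEmbedding ρ)
    (h : ∀ d, IsAssembly (Gr ρ d) BC) (h' : IsAssemblyExt BC)
    (hZ : ∀ d, ∃ Z : Set (Set (Gr ρ d)), IsAlgebraic G Z) (hK : SmallQuotients ρ) {A : Set X}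
    (hA : Invariant (⊤ : Subgroup G) A) (hA' : IsLocallyClosed A) :
    BC ⊤ A ↔ BC ⊤ {x | x ∈ A ∧ dimOf ρ (stabilizer G x) + 8 ≤ dimOf ρ (⊤ : Subgroup G)} := by
  set n := dimOf ρ (⊤ : Subgroup G) with hn
  have e0 : {x | x ∈ A ∧ dimOf ρ (stabilizer G x) + 8 ≤ n} =
      {x | x ∈ A ∧ Module.finrank ℝ (lie hρ x) < n - 7} := by
    ext x
    constructor
    · rintro ⟨h1, h2⟩
      rw [dim_stab hρ] at h2
      exact ⟨h1, by omega⟩
    · rintro ⟨h1, h2⟩
      refine ⟨h1, ?_⟩
      rw [dim_stab hρ]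
      omega
  rw [e0]
  have ho : IsOpen {x : X | Module.finrank ℝ (lie hρ x) < n - 7} := isOpen_finrank_lt hρ _
  constructor
  · intro hBC
    have hi0 : Invariant (⊤ : Subgroup G) {x | x ∈ A ∧ Module.finrank ℝ (lie hρ x) < n - 7} := by
      rintro g - x ⟨hx, hx'⟩
      exact ⟨hA g trivial x hx, by rw [finrank_lie_smul]; exact hx'⟩
    have hi1 : Invariant (⊤ : Subgroup G)
        {x | x ∈ A ∧ ¬ Module.finrank ℝ (lie hρ x) < n - 7} := by
      rintro g - x ⟨hx, hx'⟩
      exact ⟨hA g trivial x hx, by rw [finrank_lie_smul]; exact hx'⟩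
    have hl0 : IsLocallyClosed {x | x ∈ A ∧ Module.finrank ℝ (lie hρ x) < n - 7} :=
      hA'.inter ho.isLocallyClosed
    have hl1 : IsLocallyClosed {x | x ∈ A ∧ ¬ Module.finrank ℝ (lie hρ x) < n - 7} :=
      hA'.inter ho.isClosed_compl.isLocallyClosed
    have e1 : {x | x ∈ A ∧ Module.finrank ℝ (lie hρ x) < n - 7} ∪
        {x | x ∈ A ∧ ¬ Module.finrank ℝ (lie hρ x) < n - 7} = A := by
      ext x
      constructor
      · rintro (⟨h1, -⟩ | ⟨h1, -⟩)
        · exact h1
        · exact h1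
      · intro h1
        by_cases h2 : Module.finrank ℝ (lie hρ x) < n - 7
        · exact Or.inl ⟨h1, h2⟩
        · exact Or.inr ⟨h1, h2⟩
    refine h'.restriction _ _ hi0 hi1 hl0 hl1 (by rw [e1]; exact hA') ?_ ?_
      (by rw [e1]; exact hBC) ?_
    · rw [Set.disjoint_left]
      rintro x ⟨-, h2⟩ ⟨-, h3⟩
      exact h3 h2
    · rw [e1]
      exact ⟨_, ho, rfl⟩
    · refine small_orbits hρ h h' hZ hK hi1 hl1 fun x hx => ?_
      have h1 : dimOf ρ (normalizerOf ρ (lieSet ρ x)) ≤ n := dimOf_mono le_top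
      have h2 : ¬ Module.finrank ℝ (lie hρ x) < n - 7 := hx.2
      rw [dim_stab hρ]
      omega
  · intro h₀
    refine local_global hρ h hZ hA hA' (n - 7) h₀ fun W hW => ?_
    rcases Set.eq_empty_or_nonempty {x | x ∈ A ∧ lieSet ρ x = (W : Set R)} with
      he | ⟨x, hx, hx'⟩
    · rw [he]
      exact (h 0).empty _
    have hxW : lie hρ x = W := SetLike.coe_injective hx'
    have h1 : IsLarge ρ (lieOf ρ (stabilizer G x)) := by
      refine hK _ (isClosed_stab x) ?_
      have h2 : dimOf ρ (normalizerOf ρ (lieOf ρ (stabilizer G x))) ≤ n := dimOf_mono le_top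
      rw [dim_stab hρ, hxW]
      omega
    have h2 : lieOf ρ (stabilizer G x) = (W : Set R) := hx'
    rw [h2] at h1
    exact large_case hρ h' hA hA' hx' h1

/-- Simple groups. -/
theorem simple_case [IsTopologicalGroup G] (hρ : IsClosedEmbedding ρ)
    (h : ∀ d, IsAssembly (Gr ρ d) BC) (h' : IsAssemblyExt BC)
    (hZ : ∀ d, ∃ Z : Set (Set (Gr ρ d)), IsAlgebraic G Z) (hK : SmallQuotients ρ) {A : Set X}
    (hA : Invariant (⊤ : Subgroup G) A) (hA' : IsLocallyClosed A) {c : ℕ}
    (hs : IsSimpleOfCodim ρ c)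
    (hg : ∀ x ∈ A, dimOf ρ (⊤ : Subgroup G) ≤ dimOf ρ (stabilizer G x) + (c + 7)) : BC ⊤ A := by
  refine small_orbits hρ h h' hZ hK hA hA' fun x hx => ?_
  have hx1 := hg x hx
  have hcl : IsClosed (normalizerOf ρ (lieOf ρ (stabilizer G x)) : Set G) :=
    isClosed_normalizerOf hρ (lie hρ x)
  have e : lieSet ρ x = lieOf ρ (stabilizer G x) := rfl
  rw [e]
  by_cases hN : normalizerOf ρ (lieOf ρ (stabilizer G x)) = ⊤
  · have hl := hs.large
    rcases hs.simple _ (isClosed_stab x) hN with h1 | h1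
    · omega
    · rw [hN]
      omega
  · have h1 := hs.codim _ hcl hN
    omega

end

end Pool.Agent.V7H36.NS
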