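import Mathlib
import Pool.Agent.V7H36.HS.Mat
import Pool.Agent.V7H36.HS.Stab
import Pool.Agent.V7H36.NS.Final

/-!
# The group `SL_3(ℝ)`
-/

set_option autoImplicit false

open Topology Filter MulAction Matrix

namespace Pool.Agent.V7H36.NS

open Pool.Agent.V7H36.BC Pool.Agent.V7H36.HS

/-- the inclusion of `SL_{m+1}(ℝ)` into the matrices -/
def inc (m : ℕ) : SL m →* Matrix (Fin (m + 1)) (Fin (m + 1)) ℝ where
  toFun g := g.1
  map_one' := rfl
  map_mul' _ _ := rfl

theorem isClosedEmbedding_inc (m : ℕ) : IsClosedEmbedding (inc m) :=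
  SpecialLinearGroup.isClosedEmbedding_val

section

attribute [local instance] Matrix.linftyOpNormedRing Matrix.linftyOpNormedAlgebra

variable {X : Type} [TopologicalSpace X] [T2Space X] [MulAction (SL 2) X]
  [ContinuousSMul (SL 2) X] {BC : Subgroup (SL 2) → Set X → Prop}

theorem sl_three (h : ∀ d, IsAssembly (Gr (inc 2) d) BC) (h' : IsAssemblyExt BC)
    (hZ : ∀ d, ∃ Z : Set (Set (Gr (inc 2) d)), IsAlgebraic (SL 2) Z)
    (hW : ∀ W : Submodule ℝ (Matrix (Fin 3) (Fin 3) ℝ), (∃ ξ ∈ W, ∀ c : ℝ, ξ ≠ c • 1) →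
      (∃ ξ, ξ ∉ W ∧ Matrix.trace ξ = 0) → IsGood (normalizerOf (inc 2) (W : Set _)))
    {A : Set X} (hA : Invariant (⊤ : Subgroup (SL 2)) A) (hA' : IsLocallyClosed A) :
    BC ⊤ A ↔ BC ⊤ {x | x ∈ A ∧ DiscreteTopology (stabilizer (SL 2) x)} := by
  have hρ := isClosedEmbedding_inc 2
  haveI : Nonempty (Fin 3) := ⟨0⟩
  refine reduction_iff hρ h h' hZ hA hA' fun x _ hd => ?_
  by_cases hfix : ∀ g : SL 2, g • x = x
  · exact Or.inl hfix
  refine Or.inr (Or.inl ?_)
  have key := hW (lie hρ x) ?_ ?_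
  · exact key
  · -- an element which is not a scalar
    rw [discrete_iff hρ x, Submodule.eq_bot_iff] at hd
    push Not at hd
    obtain ⟨ξ, hξ, h0⟩ := hd
    refine ⟨ξ, hξ, ?_⟩
    rintro c rfl
    obtain ⟨g, -, hg⟩ := hξ 1
    rw [one_smul, exp_scalar] at hg
    have h1 : g.1 = Real.exp c • (1 : Matrix (Fin 3) (Fin 3) ℝ) := hg
    have h2 : g.1.det = 1 := g.2
    rw [h1, Matrix.det_smul, Matrix.det_one, mul_one, Fintype.card_fin] at h2
    have h3 : Real.exp c = 1 := by
      have h4 : 0 < Real.exp c := Real.exp_pos c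
      exact (pow_eq_one_iff_of_nonneg h4.le (by norm_num)).1 h2
    have h5 : c = 0 := by
      rw [← Real.exp_zero] at h3
      exact Real.exp_injective h3
    exact h0 (by rw [h5, zero_smul])
  · -- an element of trace zero outside
    by_contra hcon
    push Not at hcon
    apply hfix
    have h1 : stabilizer (SL 2) x = ⊤ := by
      refine eq_top_of_tv fun w φ hφ => ?_
      have h2 : Matrix.vecMulVec w φ ∈ lie hρ x := by
        by_contra h3
        refine hcon _ h3 ?_
        rw [Matrix.trace_vecMulVec, dotProduct_comm, hφ]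
      obtain ⟨g, hg, hg'⟩ := h2 1
      rw [one_smul, exp_sq_zero] at hg'
      · have h4 : g = tv w φ := by
          refine Subtype.ext ?_
          rw [tv_coe hφ]
          exact hg'
        rw [← h4]
        exact hg
      · rw [Matrix.vecMulVec_mul_vecMulVec, hφ, zero_smul]
        ext i j
        simp [Matrix.vecMulVec_apply]
    intro g
    have h2 : g ∈ stabilizer (SL 2) x := by rw [h1]; trivial
    exact h2

end

end Pool.Agent.V7H36.NS
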